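import Pool.Agent.MP_fe3998_an.IV.Spec

/-! The inverse of a power series whose sum is bounded below on the disc. -/

set_option autoImplicit false

namespace Pool.Agent.MP_fe3998_an.IV

open Finset Filter Topology FormalMultilinearSeries
open scoped ENNReal NNReal

namespace ANA

theorem mem_eball {z : ℂ} : z ∈ Metric.eball (0 : ℂ) 1 ↔ ‖z‖ < 1 := by
  rw [← ENNReal.coe_one, Metric.eball_coe, mem_ball_zero_iff, NNReal.coe_one]

theorem onBall (c : ℕ → ℂ) (f : ℂ → ℂ)
    (h : ∀ z : ℂ, ‖z‖ < 1 → HasSum (fun n : ℕ => c n * z ^ n) (f z)) :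
    HasFPowerSeriesOnBall f (ofScalars ℂ c) 0 1 := by
  refine ⟨ENNReal.le_of_forall_nnreal_lt fun r hr => le_radius_of_summable_norm _ ?_, one_pos,
    fun {y} hy => ?_⟩
  · have hr' : (r : ℝ) < 1 := by exact_mod_cast hr
    have := (h ((r : ℝ) : ℂ) (by simpa using hr')).summable.norm
    simpa using this
  · rw [ofScalars_apply_eq', zero_add]
    exact h y (mem_eball.1 hy)

theorem uniq (c : ℕ → ℂ) (h : ∀ z : ℂ, ‖z‖ < 1 → HasSum (fun n : ℕ => c n * z ^ n) 0) :
    c = 0 :=
  (ofScalars_series_eq_zero ℂ).1 (onBall c 0 h).hasFPowerSeriesAt.eq_zero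

theorem prod {g h : PowerSeries ℂ} {z s t : ℂ}
    (hs : HasSum (fun n : ℕ => PowerSeries.coeff n g * z ^ n) s)
    (ht : HasSum (fun n : ℕ => PowerSeries.coeff n h * z ^ n) t) :
    HasSum (fun n : ℕ => PowerSeries.coeff n (g * h) * z ^ n) (s * t) := by
  have a := tsum_mul_tsum_eq_tsum_sum_antidiagonal_of_summable_norm hs.summable.norm
    ht.summable.norm
  have b := (summable_norm_sum_mul_antidiagonal_of_summable_norm hs.summable.norm
    ht.summable.norm).of_norm.hasSum
  rw [← a, hs.tsum_eq, ht.tsum_eq] at b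
  refine (congrArg (fun f => HasSum f (s * t)) (funext fun n => ?_)).mp b
  rw [PowerSeries.coeff_mul, sum_mul]
  refine sum_congr rfl fun p hp => ?_
  rw [← mem_antidiagonal.1 hp]
  ring

end ANA

theorem ana : S_ANA := by
  intro φ δ hδ h
  choose! F hF hb using h
  have F0 : ∀ z : ℂ, ‖z‖ < 1 → F z ≠ 0 := fun z hz e => by
    have := hb z hz
    rw [e, norm_zero] at this
    exact absurd hδ (not_lt.2 this)
  have c0 : PowerSeries.constantCoeff φ ≠ 0 := by
    have a := hF 0 (by simp)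
    have b : HasSum (fun n : ℕ => PowerSeries.coeff n φ * (0 : ℂ) ^ n)
        (PowerSeries.coeff 0 φ * (0 : ℂ) ^ 0) :=
      hasSum_single 0 fun n hn => by simp [hn]
    have := a.unique b
    intro e
    refine F0 0 (by simp) ?_
    rw [this]
    simp [e]
  refine ⟨PowerSeries.mul_inv_cancel φ c0, ?_⟩
  have d : DifferentiableOn ℂ (fun z => (F z)⁻¹) (Metric.ball 0 1) := by
    refine DifferentiableOn.inv ((ANA.onBall _ F hF).differentiableOn.mono fun z hz => ?_)
      fun z hz => F0 z (mem_ball_zero_iff.1 hz)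
    exact ANA.mem_eball.2 (mem_ball_zero_iff.1 hz)
  set ψ : PowerSeries ℂ := PowerSeries.mk fun n =>
    (n.factorial : ℂ)⁻¹ * iteratedDeriv n (fun z => (F z)⁻¹) 0 with hψ
  have hG : ∀ z : ℂ, ‖z‖ < 1 →
      HasSum (fun n : ℕ => PowerSeries.coeff n ψ * z ^ n) (F z)⁻¹ := fun z hz => by
    have := Complex.hasSum_taylorSeries_on_ball d (mem_ball_zero_iff.2 hz)
    refine (congrArg (fun f => HasSum f (F z)⁻¹) (funext fun n => ?_)).mp this
    simp only [hψ, PowerSeries.coeff_mk, sub_zero, smul_eq_mul]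
    ring
  have e : ψ * φ = 1 := by
    have := ANA.uniq (fun n => PowerSeries.coeff n (ψ * φ - 1)) fun z hz => by
      have a := ANA.prod (hG z hz) (hF z hz)
      have b : HasSum (fun n : ℕ => PowerSeries.coeff n (1 : PowerSeries ℂ) * z ^ n)
          (PowerSeries.coeff 0 (1 : PowerSeries ℂ) * z ^ 0) :=
        hasSum_single 0 fun n hn => by simp [PowerSeries.coeff_one, hn]
      have c := a.sub b
      rw [inv_mul_cancel₀ (F0 z hz)] at c
      simpa [sub_mul] using c
    exact sub_eq_zero.1 (PowerSeries.ext fun n => by simpa using congrFun this n)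
  rw [← (PowerSeries.eq_inv_iff_mul_eq_one c0).2 e]
  intro z hz
  refine ⟨_, hG z hz, ?_⟩
  rw [norm_inv]
  exact inv_anti₀ hδ (hb z hz)

end Pool.Agent.MP_fe3998_an.IV
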