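import Pool.Agent.MP_fe3998_an.IV.Spec

/-! The lower bound for inverses in asymptotic form. -/

set_option autoImplicit false

namespace Pool.Agent.MP_fe3998_an.IV

open scoped ENNReal

namespace ASY

theorem num {η κ s A D : ℝ} {n : ℕ} (hη : 0 < η) (hn : 2 ≤ n * η) (hκ : 0 < κ) (hs : 1 ≤ s)
    (hD : 9 * D ≤ κ * s) (h1 : (s ^ 2) ^ n ≤ A ^ 2) (h2 : A ^ 2 ≤ 9 * D * (s ^ 2) ^ n)
    (hA : 0 < A) : A ^ (2 - η) ≤ κ * ((s ^ 2) ^ n / s) := by
  have s0 : 0 < s := by linarith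
  have a1 : s ^ n ≤ A := by
    refine (pow_le_pow_iff_left₀ (by positivity) hA.le two_ne_zero).1 ?_
    rwa [← pow_mul, mul_comm, pow_mul]
  have a2 : s ^ 2 ≤ A ^ η := by
    refine le_trans ?_ (Real.rpow_le_rpow (by positivity) a1 hη.le)
    rw [← Real.rpow_natCast s n, ← Real.rpow_mul s0.le, ← Real.rpow_two]
    exact Real.rpow_le_rpow_of_exponent_le hs hn
  rw [Real.rpow_sub hA, Real.rpow_two]
  refine (div_le_div₀ (by positivity) (h2.trans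
    (mul_le_mul_of_nonneg_right hD (by positivity))) (by positivity) a2).trans (le_of_eq ?_)
  field_simp

end ASY

theorem asy (hL : S_LOWI) : S_ASY := by
  intro η hη A₀
  obtain ⟨d, hd⟩ := pow_unbounded_of_one_lt (2 / η) (one_lt_two (α := ℝ))
  obtain ⟨κ, hκ, h⟩ := hL d
  obtain ⟨s, hs⟩ := exists_nat_ge ((A₀ : ℝ) + 9 * (d + 1) / κ + 1)
  have p0 : (0 : ℝ) ≤ 9 * (d + 1) / κ := by positivity
  have s1 : (1 : ℝ) ≤ s := by linarith [A₀.2]
  obtain ⟨φ, h1, h2, h3⟩ := h (s ^ 2) (Nat.one_le_pow _ _ (by exact_mod_cast s1))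
  have e : (((d + 1) * (s ^ 2) ^ 2 ^ d : ℕ) : ℝ) = (d + 1) * ((s : ℝ) ^ 2) ^ 2 ^ d := by
    push_cast; rfl
  rw [e] at h1
  rw [Nat.cast_pow, Real.sqrt_sq (by positivity)] at h3
  set l : ℝ := ((s : ℝ) ^ 2) ^ 2 ^ d with hl
  have l1 : (s : ℝ) ^ 2 ≤ l := le_self_pow₀ (one_le_pow₀ s1) (by positivity)
  have d0 : (0 : ℝ) ≤ d := Nat.cast_nonneg d
  have l0 : 0 ≤ l := by positivity
  have q0 : l ≤ (d + 1) * l := by nlinarith
  have q1 : (s : ℝ) ≤ √((d + 1) * l) := Real.le_sqrt_of_sq_le (l1.trans q0)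
  have q2 : √((d + 1) * l) ^ 2 = (d + 1) * l := Real.sq_sqrt (by positivity)
  set q := √((d + 1) * l) with hq
  have hA : 0 < 2 + q := by linarith
  refine ⟨(2 + q).toNNReal, φ, ?_, h1, h2, le_trans ?_ h3⟩
  · exact (Real.le_toNNReal_iff_coe_le hA.le).2 (by linarith)
  · refine (ENNReal.ofReal_rpow_of_pos hA).le.trans (ENNReal.ofReal_le_ofReal ?_)
    refine ASY.num (D := d + 1) hη ?_ hκ s1 ?_ (by nlinarith) (by nlinarith) hA
    · push_cast
      exact (div_le_iff₀ hη).1 hd.le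
    · rw [mul_comm κ, ← div_le_iff₀ hκ]
      linarith [A₀.2]

end Pool.Agent.MP_fe3998_an.IV
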