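import Pool.Agent.MP_fe3998_an.IV.Spec

/-! Row BAND: the difference of two consecutive dilations. -/

set_option autoImplicit false

namespace Pool.Agent.MP_fe3998_an.IV

open Finset Pool.Agent.MP_fe3998_an.PR

namespace BAND

theorem geo {r c : ℝ} (h0 : 0 ≤ r) (hc : 0 ≤ c) (h : c * (1 - r) = 1) (N : ℕ) :
    ∑ m ∈ range N, r ^ m ≤ c := by
  have e := geom_sum_mul_neg r N
  have p : 0 ≤ r ^ N := pow_nonneg h0 N
  calc ∑ m ∈ range N, r ^ m = c * ((∑ m ∈ range N, r ^ m) * (1 - r)) := by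
        rw [mul_left_comm, h, mul_one]
    _ = c * (1 - r ^ N) := by rw [e]
    _ ≤ c := by nlinarith

theorem sq_le {t : ℝ} {z : ℂ} (h0 : 0 ≤ t) (h1 : t ≤ 1) (hz : ‖z‖ ≤ 1) :
    ‖(t : ℂ) * z‖ ^ 2 ≤ t := by
  rw [norm_mul, Complex.norm_real, Real.norm_of_nonneg h0]
  have a : t * ‖z‖ ≤ t := mul_le_of_le_one_right h0 hz
  have b : 0 ≤ t * ‖z‖ := mul_nonneg h0 (norm_nonneg _)
  nlinarith

theorem coeff_le {g : PowerSeries ℂ} {b : ℝ} (h : HB g b) (n : ℕ) :
    ‖PowerSeries.coeff n g‖ ≤ b := by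
  have := h (n + 1) 1 0 (fun j => if j = n then 1 else 0) (fun _ => 1)
  have e : ∑ i ∈ range (n + 1), ‖(if i = n then 1 else 0 : ℂ)‖ ^ 2 = 1 := by
    rw [sum_eq_single n (fun i _ hi => by simp [hi]) (by simp)]
    simp
  rw [e] at this
  simpa using this

theorem rr_pos (a : ℕ) : 0 ≤ rr a ∧ rr a ≤ 1 ∧ 2 * 4 ^ a * (1 - rr a) = 1 := by
  have h : (1 : ℝ) ≤ 4 ^ a := one_le_pow₀ (by norm_num)
  have h1 : 1 / (2 * (4 : ℝ) ^ a) ≤ 1 := (div_le_one (by linarith)).2 (by linarith)
  have h2 : 0 ≤ 1 / (2 * (4 : ℝ) ^ a) := by positivity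
  unfold rr
  refine ⟨by linarith, by linarith, ?_⟩
  field_simp
  ring

end BAND

open BAND in
theorem band : S_BAND := by
  intro g b a h
  have hb := h.nonneg
  obtain ⟨r0, r1, r2⟩ := rr_pos a
  obtain ⟨s0, s1, s2⟩ := rr_pos (a + 1)
  have hD : (0 : ℝ) < 4 ^ a := by positivity
  constructor
  · let e : ℕ → ℝ := fun k => if k = 0 then 0 else rr a ^ (k - 1)
    have e0 : ∀ k, 0 ≤ e k ∧ e k ≤ 1 := fun k => by
      simp only [e]
      split_ifs
      · norm_num
      · exact ⟨pow_nonneg r0 _, pow_le_one₀ r0 r1⟩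
    refine ⟨fun m k => ((rr (a + 1) - rr a : ℝ) : ℂ) * PowerSeries.coeff (m + k) g *
      ((rr (a + 1) ^ m : ℝ) : ℂ) * (e k : ℂ), fun n => ?_, fun N x y hx hy => ?_⟩
    · rw [map_sub, coeff_dil, coeff_dil, ← sub_mul, ← geom_sum₂_mul, sum_range_succ, sum_mul,
        sum_mul]
      simp only [Nat.sub_self, e, if_true, Complex.ofReal_zero, mul_zero, add_zero]
      refine sum_congr rfl fun j hj => ?_
      have hj := mem_range.1 hj
      rw [if_neg (by omega), show j + (n - j) = n by omega, show n - j - 1 = n - 1 - j by omega]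
      push_cast
      ring
    · have k := h N N 0 (fun m => ((rr (a + 1) ^ m : ℝ) : ℂ) * x m) (fun k => (e k : ℂ) * y k)
      simp only [zero_le, if_true, Nat.sub_zero] at k
      have q1 : ∑ m ∈ range N, ‖((rr (a + 1) ^ m : ℝ) : ℂ) * x m‖ ^ 2 ≤ 2 * 4 ^ (a + 1) :=
        (sum_le_sum fun m _ => sq_le (pow_nonneg s0 _) (pow_le_one₀ s0 s1) (hx m)).trans
          (geo s0 (by positivity) s2 N)
      have q2 : ∑ k ∈ range N, ‖(e k : ℂ) * y k‖ ^ 2 ≤ 2 * 4 ^ a := by
        refine (sum_le_sum fun k _ => sq_le (e0 k).1 (e0 k).2 (hy k)).trans ?_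
        refine (sum_le_sum_of_subset_of_nonneg (range_subset_range.2 (Nat.le_succ N))
          fun k _ _ => (e0 k).1).trans ?_
        rw [sum_range_succ']
        simpa [e] using geo r0 (by positivity) r2 N
      have q3 : √(∑ m ∈ range N, ‖((rr (a + 1) ^ m : ℝ) : ℂ) * x m‖ ^ 2) *
          √(∑ k ∈ range N, ‖(e k : ℂ) * y k‖ ^ 2) ≤ 4 * 4 ^ a := by
        rw [← Real.sqrt_mul (sum_nonneg fun _ _ => by positivity)]
        refine Real.sqrt_le_iff.2 ⟨by positivity, ?_⟩
        refine (mul_le_mul q1 q2 (sum_nonneg fun _ _ => by positivity) (by positivity)).trans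
          (le_of_eq ?_)
        ring
      have d : (rr (a + 1) - rr a) * (8 * 4 ^ a) = 3 := by
        rw [pow_succ] at s2
        linarith
      have d0 : 0 ≤ rr (a + 1) - rr a := by
        by_contra hn
        nlinarith
      have e2 : ∑ m ∈ range N, ∑ k ∈ range N, ((rr (a + 1) - rr a : ℝ) : ℂ) *
            PowerSeries.coeff (m + k) g * ((rr (a + 1) ^ m : ℝ) : ℂ) * (e k : ℂ) * x m * y k =
          ((rr (a + 1) - rr a : ℝ) : ℂ) * ∑ m ∈ range N, ∑ k ∈ range N,
            PowerSeries.coeff (m + k) g * (((rr (a + 1) ^ m : ℝ) : ℂ) * x m) *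
              ((e k : ℂ) * y k) := by
        simp only [mul_sum]
        exact sum_congr rfl fun m _ => sum_congr rfl fun k _ => by ring
      rw [e2, norm_mul, Complex.norm_real, Real.norm_of_nonneg d0]
      rw [mul_assoc] at k
      have k2 := mul_le_mul_of_nonneg_left (k.trans (mul_le_mul_of_nonneg_left q3 hb)) d0
      refine k2.trans ?_
      have : (rr (a + 1) - rr a) * (b * (4 * 4 ^ a)) = 3 / 2 * b := by
        linear_combination b / 2 * d
      linarith
  · refine ⟨fun m k => if k = 0 then ((rr a : ℝ) : ℂ) ^ m * PowerSeries.coeff m g else 0,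
      fun n => ?_, fun N x y hx hy => ?_⟩
    · rw [coeff_dil, sum_range_succ, sum_eq_zero fun j hj => if_neg (by
        have := mem_range.1 hj
        omega)]
      simp
    · refine (norm_sum_le_of_le _ (n := fun m => rr a ^ m * b) fun m _ => ?_).trans ?_
      · have p : 0 ≤ rr a ^ m * b := mul_nonneg (pow_nonneg r0 _) hb
        simp only [ite_mul, zero_mul, sum_ite_eq']
        split_ifs
        · rw [norm_mul, norm_mul, norm_mul, norm_pow, Complex.norm_real, Real.norm_of_nonneg r0]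
          refine (mul_le_of_le_one_right (by positivity) (hy 0)).trans ?_
          refine (mul_le_of_le_one_right (by positivity) (hx m)).trans ?_
          exact mul_le_mul_of_nonneg_left (coeff_le h m) (pow_nonneg r0 _)
        · simpa using p
      · rw [← sum_mul]
        exact mul_le_mul_of_nonneg_right (geo r0 (by positivity) r2 N) hb

end Pool.Agent.MP_fe3998_an.IV
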