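import Pool.Agent.MP_fe3998_an.IV.Spec

/-! Counting the cells of a system that meet a region. -/

set_option autoImplicit false

namespace Pool.Agent.MP_fe3998_an.IV

open Finset

namespace CNTH

theorem geo {d : ℕ} {e : ℕ → ℕ} (h : ∀ i < d, e i < e (i + 1)) :
    ∀ j ≤ d, 7 * ∑ i ∈ range j, 8 ^ e i + 1 ≤ 8 ^ e j := by
  intro j
  induction j with
  | zero => exact fun _ => by simpa using Nat.one_le_pow _ _ (by norm_num)
  | succ j ih =>
    intro hj
    have h1 := ih (by omega)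
    have h2 : 8 ^ (e j + 1) ≤ 8 ^ e (j + 1) := Nat.pow_le_pow_right (by norm_num) (h j hj)
    rw [sum_range_succ]
    rw [pow_succ] at h2
    omega

theorem split (W d j : ℕ) (e : ℕ → ℕ → ℕ) (c : ℕ) (hj : j ≤ d) : FF W d e c =
    8 * W * (∑ i ∈ range j, 8 ^ e i c + ∑ i ∈ Icc j d, 8 ^ e i c) := by
  rw [FF, ← sum_range_add_sum_Ico _ (show j ≤ d + 1 by omega), Ico_add_one_right_eq_Icc, mul_add,
    mul_sum, mul_sum]
  rfl

theorem top {W d : ℕ} {e : ℕ → ℕ → ℕ} {c : ℕ} (h : ∀ i < d, e i c < e (i + 1) c) :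
    FF W d e c + W ≤ 2 * W * 8 ^ (e d c + 1) := by
  have h1 := geo (e := fun i => e i c) h d le_rfl
  rw [split W d d e c le_rfl, Icc_self, sum_singleton, pow_succ]
  have h2 : 8 * (∑ i ∈ range d, 8 ^ e i c + 8 ^ e d c) + 1 ≤ 2 * (8 ^ e d c * 8) := by omega
  have h3 := Nat.mul_le_mul_left W h2
  nlinarith

theorem near {M W d j p : ℕ} {e : ℕ → ℕ → ℕ} {c : ℕ} (hM : 1 ≤ M) (hW : M ≤ W) (hj : j < d)
    (h : ∀ i < d, e i c < e (i + 1) c) (hA : RA M W d e j c p) :
    |(p : ℝ) / (8 * W) - ∑ i ∈ Icc j d, (8 : ℝ) ^ e i c| < 3 / 8 * 8 ^ e j c := by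
  have h1 := geo (e := fun i => e i c) h j hj.le
  have h2 := hA.1
  have h3 : FF W d e c < p + M + 2 * W * 8 ^ e j c := hA.2.1 hj
  rw [split W d j e c hj.le] at h2 h3
  have h4 : ∑ i ∈ Icc j d, (8 : ℝ) ^ e i c = ((∑ i ∈ Icc j d, 8 ^ e i c : ℕ) : ℝ) := by
    push_cast
    rfl
  have h5 : (8 : ℝ) ^ e j c = ((8 ^ e j c : ℕ) : ℝ) := by
    push_cast
    rfl
  rw [h4, h5]
  generalize ∑ i ∈ Icc j d, 8 ^ e i c = H at *
  generalize ∑ i ∈ range j, 8 ^ e i c = L at *
  generalize 8 ^ e j c = E at *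
  have a1 : W * (8 * L + 1) ≤ W * (3 * E) := Nat.mul_le_mul_left W (by omega)
  have a2 : W * 1 ≤ W * E := Nat.mul_le_mul_left W (by omega)
  have a3 : p < 8 * W * H + 3 * W * E := by nlinarith
  have a4 : 8 * W * H < p + 3 * W * E := by nlinarith [Nat.zero_le (W * L)]
  have a5 : (p : ℝ) < 8 * W * H + 3 * W * E := by exact_mod_cast a3
  have a6 : (8 * W * H : ℝ) < p + 3 * W * E := by exact_mod_cast a4
  have a7 : (0 : ℝ) < 8 * W := by
    have : (1 : ℝ) ≤ W := by exact_mod_cast hM.trans hW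
    linarith
  rw [abs_lt, neg_lt_sub_iff_lt_add, sub_lt_iff_lt_add, ← sub_lt_iff_lt_add', lt_div_iff₀ a7,
    div_lt_iff₀ a7]
  constructor <;> linarith

end CNTH

open CNTH

theorem cnth (hD : S_DIG) : S_CNTH := by
  intro d M w W e α β hS hM hW j hj
  obtain ⟨-, s2, -, s4, s5, s6⟩ := hS
  refine ⟨fun p => ?_, fun q => ?_⟩
  · classical
    rcases ((range M).filter fun c => RA M W d e j c p).eq_empty_or_nonempty with h | ⟨c₀, h₀⟩
    · rw [h]
      exact Nat.zero_le _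
    obtain ⟨b1, b2⟩ := mem_filter.1 h₀
    refine le_trans (card_le_card fun c hc => ?_) (s4 j hj fun i => e i c₀)
    simp only [mem_filter] at hc ⊢
    obtain ⟨c1, c2⟩ := hc
    have t1 := s2 c (mem_range.1 c1)
    have t2 := s2 c₀ (mem_range.1 b1)
    refine ⟨c1, ?_⟩
    rcases hj.lt_or_eq with h | rfl
    · exact hD j d (fun i => e i c) (fun i => e i c₀) _ hj t1 t2 (near hM hW h t1 c2)
        (near hM hW h t2 b2)
    · have k : ∀ a b, (∀ i < j, e i a < e (i + 1) a) → RA M W j e j a p → RA M W j e j b p →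
          e j b ≤ e j a := fun a b ha h1 h2 => not_lt.1 fun h => by
        have u1 := h1.1.trans_le (top (W := W) ha)
        have u2 : 8 * W * 8 ^ e j b ≤ 4 * p := h2.2.2 rfl
        have u3 := Nat.mul_le_mul_left W (Nat.pow_le_pow_right (n := 8) (by norm_num)
          (Nat.succ_le_of_lt h))
        rw [mul_assoc] at u1 u2
        simp only [Nat.succ_eq_add_one] at u3
        omega
      intro i i1 i2
      rw [le_antisymm i2 i1]
      exact le_antisymm (k c₀ c t2 b2 c2) (k c c₀ t1 c2 b2)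
  · classical
    rcases j with _ | j
    · exact (card_filter_le _ _).trans ((card_range M).trans_le s5)
    refine le_trans (card_le_card fun c hc => ?_) (s6 j hj (Nat.log 8 (q / (2 * W))))
    simp only [mem_filter] at hc ⊢
    obtain ⟨c1, c2, c3, c4⟩ := hc
    have w0 : 0 < 2 * W := by omega
    have u1 : 8 ^ e j c ≤ q / (2 * W) := (Nat.le_div_iff_mul_le w0).2 (by rw [mul_comm]; exact c3)
    have u2 : q < 2 * W * 8 ^ (e (j + 1) c + 1) := by
      rcases hj.lt_or_eq with h | rfl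
      · exact (c4 h).trans_le (Nat.mul_le_mul_left _
          (Nat.pow_le_pow_right (by norm_num) (Nat.le_succ _)))
      · exact c2.trans_le (top (s2 c (mem_range.1 c1)))
    have u3 : q / (2 * W) ≠ 0 := ((Nat.pow_pos (by norm_num)).trans_le u1).ne'
    exact ⟨c1, Nat.le_log_of_pow_le (by norm_num) u1,
      Nat.lt_succ_iff.1 (Nat.log_lt_of_lt_pow u3 (Nat.div_lt_of_lt_mul u2))⟩

end Pool.Agent.MP_fe3998_an.IV
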