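import Pool.Agent.MP_fe3998_an.IV.Spec

/-! A lacunary sum of powers of eight is determined by an approximate value. -/

set_option autoImplicit false

namespace Pool.Agent.MP_fe3998_an.IV

open Finset

namespace DIG

theorem up {a b : ℕ} (h : a < b) : 8 * (8 : ℝ) ^ a ≤ 8 ^ b := by
  rw [← pow_succ']
  exact pow_le_pow_right₀ (by norm_num) h

theorem bnd {j d : ℕ} {e : ℕ → ℕ} (hj : j ≤ d) (he : ∀ i < d, e i < e (i + 1)) :
    (8 : ℝ) ^ e j ≤ 8 ^ e d ∧ (8 : ℝ) ^ e d ≤ ∑ i ∈ Icc j d, (8 : ℝ) ^ e i ∧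
      ∑ i ∈ Icc j d, (8 : ℝ) ^ e i ≤ 8 / 7 * 8 ^ e d := by
  induction d, hj using Nat.le_induction with
  | base =>
    have : (0 : ℝ) < 8 ^ e j := by positivity
    rw [Icc_self, sum_singleton]
    exact ⟨le_rfl, le_rfl, by linarith⟩
  | succ d hj ih =>
    obtain ⟨h1, h2, h3⟩ := ih fun i hi => he i (by omega)
    have h4 := up (he d (by omega))
    have : (0 : ℝ) < 8 ^ e d := by positivity
    rw [sum_Icc_succ_top (by omega)]
    exact ⟨by linarith, by linarith, by linarith⟩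

theorem top {j d : ℕ} {e e' : ℕ → ℕ} {x : ℝ} (hj : j ≤ d) (he : ∀ i < d, e i < e (i + 1))
    (he' : ∀ i < d, e' i < e' (i + 1))
    (h : |x - ∑ i ∈ Icc j d, (8 : ℝ) ^ e i| < 3 / 8 * 8 ^ e j)
    (h' : |x - ∑ i ∈ Icc j d, (8 : ℝ) ^ e' i| < 3 / 8 * 8 ^ e' j) : e' d ≤ e d := by
  by_contra k
  have k1 := up (not_le.1 k)
  obtain ⟨a1, -, a3⟩ := bnd hj he
  obtain ⟨b1, b2, -⟩ := bnd hj he'
  have c1 := (abs_lt.1 h).2
  have c2 := (abs_lt.1 h').1
  have : (0 : ℝ) < 8 ^ e d := by positivity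
  linarith

end DIG

open DIG in
theorem dig : S_DIG := by
  intro j d e e' x hj
  induction d, hj using Nat.le_induction generalizing x with
  | base =>
    intro he he' h h' i h1 h2
    rw [le_antisymm h2 h1]
    exact le_antisymm (top le_rfl he' he h' h) (top le_rfl he he' h h')
  | succ d hj ih =>
    intro he he' h h' i h1 h2
    have k : e (d + 1) = e' (d + 1) :=
      le_antisymm (top (by omega) he' he h' h) (top (by omega) he he' h h')
    rcases h2.eq_or_lt with rfl | h3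
    · exact k
    · rw [sum_Icc_succ_top (by omega), add_comm, ← sub_sub] at h h'
      rw [← k] at h'
      exact ih _ (fun i hi => he i (by omega)) (fun i hi => he' i (by omega)) h h' i h1 (by omega)

end Pool.Agent.MP_fe3998_an.IV
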