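import Pool.Agent.MP_fe3998_an.IV.Spec
import Pool.Agent.MP_fe3998_an.PR.LIM

/-!
One weight for all finite sections, and the approximation by finite matrices.
-/

set_option autoImplicit false

namespace Pool.Agent.MP_fe3998_an.IV

open Finset Polynomial Pool.Agent.MP_fe3998_an.PR Filter Topology
open scoped ENNReal

namespace FACI

/-- The part below `N`. -/
def lo (N : ℕ) (x : ℕ → ℂ) (m : ℕ) : ℂ := if m < N then x m else 0

/-- The part from `N` on. -/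
def hi (N : ℕ) (x : ℕ → ℂ) (m : ℕ) : ℂ := if m < N then 0 else x m

lemma cut {E : Type} [AddCommMonoid E] {N₀ N : ℕ} (h : N₀ ≤ N) (f g : ℕ → E)
    (h1 : ∀ m < N₀, f m = g m) (h2 : ∀ m, ¬ m < N₀ → f m = 0) :
    ∑ m ∈ range N, f m = ∑ m ∈ range N₀, g m := by
  rw [← sum_subset (range_mono h) fun m _ hm => h2 m fun k => hm (mem_range.2 k)]
  exact sum_congr rfl fun m hm => h1 m (mem_range.1 hm)

lemma cut1 {N₀ N : ℕ} (h : N₀ ≤ N) (p : ℕ → ℝ) (x : ℕ → ℂ) :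
    ∑ m ∈ range N, p m * ‖lo N₀ x m‖ ^ 2 = ∑ m ∈ range N₀, p m * ‖x m‖ ^ 2 :=
  cut h _ _ (fun m hm => by rw [lo, if_pos hm]) fun m hm => by simp [lo, hm]

lemma cut2 {N₀ N : ℕ} (h : N₀ ≤ N) (γ : ℕ → ℕ → ℂ) (x y : ℕ → ℂ) :
    ∑ m ∈ range N, ∑ k ∈ range N, γ m k * lo N₀ x m * lo N₀ y k =
      ∑ m ∈ range N₀, ∑ k ∈ range N₀, γ m k * x m * y k :=
  cut h _ _ (fun m hm => cut h _ _ (fun k hk => by simp only [lo, if_pos hm, if_pos hk])
    fun k hk => by simp [lo, hk]) fun m hm => by simp [lo, hm]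

lemma mass {p : ℕ → ℝ} (h0 : ∀ m, 0 ≤ p m) {N : ℕ} (h1 : ∑ m ∈ range N, p m ≤ 1) {x : ℕ → ℂ}
    (hx : ∀ m, ‖x m‖ ≤ 1) : √(∑ m ∈ range N, p m * ‖x m‖ ^ 2) ≤ 1 :=
  Real.sqrt_le_one.2 ((sum_le_sum fun m _ => mul_le_of_le_one_right (h0 m)
    (pow_le_one₀ (norm_nonneg _) (hx m))).trans h1)

lemma inInj (hF : S_FACI) {γ : ℕ → ℕ → ℂ} {M : ℝ} (h : ∀ N, InjB (range N) (range N) γ M) :
    InInj γ := by
  obtain ⟨p, h0, h1, h2⟩ := hF γ M h
  have hM := (h 0).nonneg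
  intro ε hε
  obtain ⟨e, -, e1, e2⟩ := ENNReal.lt_iff_exists_real_btwn.1 hε
  have e0 : 0 < e := ENNReal.ofReal_pos.1 e1
  have t0 : 0 < e / (512 * M + 1) := by positivity
  obtain ⟨s, hs⟩ := summable_iff_vanishing_norm.1 (summable_of_sum_range_le h0 h1) _
    (pow_pos t0 2)
  obtain ⟨N₀, hN⟩ := s.exists_nat_subset_range
  have tail : ∀ (N : ℕ) (x : ℕ → ℂ), (∀ m, ‖x m‖ ≤ 1) →
      √(∑ m ∈ range N, p m * ‖hi N₀ x m‖ ^ 2) ≤ e / (512 * M + 1) := by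
    intro N x hx
    refine Real.sqrt_le_iff.2 ⟨t0.le, le_trans ?_ ((Real.le_norm_self _).trans
      (hs ((range N).filter fun m => ¬ m < N₀) (disjoint_left.2 fun m a b =>
        (mem_filter.1 a).2 (mem_range.1 (hN b)))).le)⟩
    rw [sum_filter]
    refine sum_le_sum fun m _ => ?_
    by_cases c : m < N₀
    · simp [hi, c]
    · rw [hi, if_neg c, if_pos c]
      exact mul_le_of_le_one_right (h0 m) (pow_le_one₀ (norm_nonneg _) (hx m))
  refine ⟨N₀, fun m k => if m < N₀ ∧ k < N₀ then γ m k else 0,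
    fun m k c => if_neg (by omega), (LIM.le_of_ib fun N x y hx hy => ?_).trans_lt e2⟩
  have e3 : ∀ m k, (γ - fun m k => if m < N₀ ∧ k < N₀ then γ m k else 0) m k * x m * y k =
      γ m k * hi N₀ x m * y k + γ m k * lo N₀ x m * hi N₀ y k := by
    intro m k
    by_cases a : m < N₀ <;> by_cases b : k < N₀ <;> simp [lo, hi, a, b]
  simp only [e3, sum_add_distrib]
  have hl : ∀ m, ‖lo N₀ x m‖ ≤ 1 := fun m => by
    unfold lo
    split_ifs
    · exact hx m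
    · simp
  have b1 := mass h0 (h1 N) hy
  have b2 := mass h0 (h1 N) hl
  have b3 := tail N x hx
  have b4 := tail N y hy
  calc _ ≤ _ := (norm_add_le _ _).trans (add_le_add (h2 N _ _) (h2 N _ _))
    _ ≤ 256 * M * (e / (512 * M + 1)) * 1 + 256 * M * 1 * (e / (512 * M + 1)) := by gcongr
    _ = e * (512 * M / (512 * M + 1)) := by ring
    _ ≤ e := mul_le_of_le_one_right e0.le ((div_le_one (by positivity)).2 (by linarith))

end FACI

theorem faci (hF : S_FAC) : S_FACI := by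
  intro γ M h
  choose p h0 h1 h2 using fun N => hF N γ M (h N)
  have ev : ∀ N₀ : ℕ, ∀ᶠ N in (hyperfilter ℕ : Filter ℕ), N₀ ≤ N := fun N₀ =>
    Nat.hyperfilter_le_atTop (eventually_ge_atTop N₀)
  have sub : ∀ N₀ N, N₀ ≤ N → ∑ m ∈ range N₀, p N m ≤ 1 := fun N₀ N a =>
    (sum_le_sum_of_subset_of_nonneg (range_mono a) fun m _ _ => h0 N m).trans (h1 N)
  have lim : ∀ m, ∃ L ∈ Set.Icc (0 : ℝ) 1, Tendsto (fun N => p N m) (hyperfilter ℕ) (𝓝 L) :=
    fun m => isCompact_Icc.ultrafilter_le_nhds ((hyperfilter ℕ).map fun N => p N m)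
      (le_principal_iff.2 (mem_map.2 ((ev (m + 1)).mono fun N a => ⟨h0 N m,
        (single_le_sum (fun k _ => h0 N k) (self_mem_range_succ m)).trans (sub _ N a)⟩)))
  choose q q0 q1 using lim
  refine ⟨q, fun m => (q0 m).1, fun N₀ => le_of_tendsto (tendsto_finsetSum _ fun m _ => q1 m)
    ((ev N₀).mono (sub N₀)), fun N₀ x y => ?_⟩
  have t : ∀ x : ℕ → ℂ, Tendsto (fun N => √(∑ m ∈ range N₀, p N m * ‖x m‖ ^ 2)) (hyperfilter ℕ)
      (𝓝 √(∑ m ∈ range N₀, q m * ‖x m‖ ^ 2)) := fun x =>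
    (tendsto_finsetSum _ fun m _ => (q1 m).mul_const _).sqrt
  refine ge_of_tendsto (((t x).const_mul (256 * M)).mul (t y)) ((ev N₀).mono fun N a => ?_)
  have := h2 N (FACI.lo N₀ x) (FACI.lo N₀ y)
  rwa [FACI.cut1 a, FACI.cut1 a, FACI.cut2 a] at this

theorem pitt (hF : S_FACI) : S_PITT := by
  rintro φ M ⟨γ, h1, h2⟩
  refine le_trans ?_ (LIM.le_of_ib h2)
  unfold xNorm
  exact iInf_le_of_le γ (iInf_le_of_le (FACI.inInj hF h2) (iInf_le_of_le h1 le_rfl))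

end Pool.Agent.MP_fe3998_an.IV
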