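import Pool.Agent.MP_fe3998_an.IV.Spec
import Pool.Agent.MP_fe3998_an.PR.CONV

/-!
The product of a far piece with a dilation.
-/

set_option autoImplicit false

namespace Pool.Agent.MP_fe3998_an.IV

open Finset Pool.Agent.MP_fe3998_an.PR

namespace FAR1

theorem ser (γ γ' : ℕ → ℕ → ℂ) (n : ℕ) : ∑ j ∈ range (n + 1), conv γ γ' j (n - j) =
    ∑ i ∈ range (n + 1), (∑ j ∈ range (i + 1), γ j (i - j)) *
      ∑ j ∈ range (n - i + 1), γ' j (n - i - j) := by
  simp only [conv, sum_mul_sum, sum_sigma']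
  refine sum_nbij' (fun a => ⟨a.2.1 + a.2.2, a.2.1, a.1 - a.2.1⟩)
    (fun a => ⟨a.2.1 + a.2.2, a.2.1, a.1 - a.2.1⟩) ?_ ?_ ?_ ?_ ?_
  · rintro ⟨a, b, c⟩ ha
    simp only [mem_sigma, mem_range] at ha ⊢
    omega
  · rintro ⟨a, b, c⟩ ha
    simp only [mem_sigma, mem_range] at ha ⊢
    omega
  · rintro ⟨a, b, c⟩ ha
    simp only [mem_sigma, mem_range] at ha
    have e1 : b + (a - b) = a := by omega
    have e2 : b + c - b = c := by omega
    simp only [e1, e2]
  · rintro ⟨a, b, c⟩ ha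
    simp only [mem_sigma, mem_range] at ha
    have e1 : b + (a - b) = a := by omega
    have e2 : b + c - b = c := by omega
    simp only [e1, e2]
  · rintro ⟨a, b, c⟩ ha
    simp only [mem_sigma, mem_range] at ha
    have e1 : n - (b + c) - (a - b) = n - a - c := by omega
    have e2 : b + c - b = c := by omega
    simp only [e1, e2]

theorem shiftOp {u : ℕ → ℕ → ℂ} {K : ℝ} (h : ∀ N, OpB (range N) (range N) u K) (E N : ℕ) :
    OpB (range N) (range N) (fun m k => u (E + m) k) K := by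
  intro x y
  have k := h (E + N) (fun m => if E ≤ m then x (m - E) else 0) (fun k => if k < N then y k else 0)
  have hy : ∀ f : ℕ → ℂ → ℂ, (∀ k, f k 0 = 0) →
      ∑ k ∈ range (E + N), f k (if k < N then y k else 0) = ∑ k ∈ range N, f k (y k) := by
    intro f hf
    rw [add_comm, sum_range_add, sum_eq_zero (s := range E)
      (fun k _ => by rw [if_neg (by omega), hf]), add_zero]
    exact sum_congr rfl fun k hk => by rw [if_pos (mem_range.1 hk)]
  have e1 : ∑ m ∈ range (E + N), ∑ k ∈ range (E + N),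
      u m k * (if E ≤ m then x (m - E) else 0) * (if k < N then y k else 0) =
      ∑ m ∈ range N, ∑ k ∈ range N, u (E + m) k * x m * y k := by
    rw [sum_range_add, sum_eq_zero (s := range E) (fun m hm => sum_eq_zero fun k _ => by
      rw [if_neg (not_le.2 (mem_range.1 hm)), mul_zero, zero_mul]), zero_add]
    refine sum_congr rfl fun m _ => ?_
    rw [if_pos (Nat.le_add_right E m), Nat.add_sub_cancel_left]
    exact hy (fun k z => u (E + m) k * x m * z) fun _ => mul_zero _
  have e2 : ∑ m ∈ range (E + N), ‖if E ≤ m then x (m - E) else 0‖ ^ 2 =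
      ∑ m ∈ range N, ‖x m‖ ^ 2 := by
    rw [sum_range_add, sum_eq_zero (s := range E) (fun m hm => by
      rw [if_neg (not_le.2 (mem_range.1 hm))]; simp), zero_add]
    exact sum_congr rfl fun m _ => by
      rw [if_pos (Nat.le_add_right E m), Nat.add_sub_cancel_left]
  have e3 : ∑ k ∈ range (E + N), ‖if k < N then y k else 0‖ ^ 2 = ∑ k ∈ range N, ‖y k‖ ^ 2 := by
    rw [add_comm, sum_range_add, sum_eq_zero (s := range E)
      (fun k _ => by rw [if_neg (by omega)]; simp), add_zero]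
    exact sum_congr rfl fun k hk => by rw [if_pos (mem_range.1 hk)]
  rwa [e1, e2, e3] at k

theorem wt (N : ℕ) {w w' : ℕ → ℝ} {A B : ℝ} {x : ℕ × ℕ → ℂ} (hw : ∑ m ∈ range N, w m ^ 2 ≤ A)
    (hw' : ∑ m ∈ range N, w' m ^ 2 ≤ B) (hx : ∀ i, ‖x i‖ ≤ 1) :
    ∑ i ∈ range N ×ˢ range N, ‖(w i.1 : ℂ) * (w' i.2 : ℂ) * x i‖ ^ 2 ≤ A * B := by
  have h0 : 0 ≤ ∑ m ∈ range N, w m ^ 2 := sum_nonneg fun _ _ => sq_nonneg _
  calc ∑ i ∈ range N ×ˢ range N, ‖(w i.1 : ℂ) * (w' i.2 : ℂ) * x i‖ ^ 2
      ≤ ∑ i ∈ range N ×ˢ range N, w i.1 ^ 2 * w' i.2 ^ 2 := by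
        refine sum_le_sum fun i _ => ?_
        rw [norm_mul, norm_mul, mul_pow, mul_pow, Complex.norm_real, Complex.norm_real,
          Real.norm_eq_abs, Real.norm_eq_abs, sq_abs, sq_abs]
        exact mul_le_of_le_one_right (by positivity) (pow_le_one₀ (norm_nonneg _) (hx i))
    _ = (∑ m ∈ range N, w m ^ 2) * ∑ m ∈ range N, w' m ^ 2 := by
        rw [sum_mul_sum, sum_product]
    _ ≤ A * B := mul_le_mul hw hw' (sum_nonneg fun _ _ => sq_nonneg _) (h0.trans hw)

theorem rr_half (a : ℕ) {E : ℕ} (h : E ≤ 4 ^ a) : 1 / 2 ≤ rr a ^ E := by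
  have p : (1 : ℝ) ≤ 4 ^ a := one_le_pow₀ (by norm_num)
  have h1 : (E : ℝ) ≤ 4 ^ a := by exact_mod_cast h
  have h2 : (1 : ℝ) / (2 * 4 ^ a) ≤ 1 / 2 := one_div_le_one_div_of_le (by norm_num) (by linarith)
  have h3 := one_add_mul_le_pow (a := -(1 / (2 * 4 ^ a) : ℝ)) (by linarith) E
  have h4 : (E : ℝ) * (1 / (2 * 4 ^ a)) ≤ 1 / 2 := by
    rw [mul_one_div, div_le_iff₀ (by positivity)]
    linarith
  rw [rr, sub_eq_add_neg]
  linarith

theorem rr_pos (a : ℕ) : 0 < rr a := by
  have := rr_half a (E := 1) (Nat.one_le_pow _ _ (by norm_num))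
  rw [pow_one] at this
  linarith

theorem rr_le (a : ℕ) : rr a ≤ 1 := sub_le_self _ (by positivity)

theorem geo (a N : ℕ) : ∑ j ∈ range N, (rr a ^ j) ^ 2 ≤ 2 * 4 ^ a := by
  have h0 := rr_pos a
  have h1 : ∑ j ∈ range N, (rr a ^ j) ^ 2 ≤ ∑ j ∈ range N, rr a ^ j :=
    sum_le_sum fun j _ => by
      rw [sq]
      exact mul_le_of_le_one_right (by positivity) (pow_le_one₀ h0.le (rr_le a))
  have h2 := mul_neg_geom_sum (rr a) N
  have h3 : 1 - rr a = 1 / (2 * 4 ^ a) := by rw [rr]; ring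
  rw [h3, one_div_mul_eq_div, div_eq_iff (by positivity)] at h2
  have h4 : (1 - rr a ^ N) * (2 * 4 ^ a) ≤ 2 * 4 ^ a :=
    mul_le_of_le_one_left (by positivity) (sub_le_self _ (by positivity))
  linarith

/-- The weight of the short index. -/
noncomputable def tt (a E l : ℕ) : ℝ := if l < E + 1 then rr a ^ l / (rr a ^ E * (E + 1)) else 0

theorem tt_sq (a N : ℕ) {E : ℕ} (h : E ≤ 4 ^ a) : ∑ l ∈ range N, tt a E l ^ 2 ≤ 4 / (E + 1) := by
  have h0 := rr_pos a
  have h1 := rr_half a h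
  have p : (0 : ℝ) < E + 1 := by positivity
  have h2 : ∀ l ∈ range N, tt a E l ^ 2 ≤ if l < E + 1 then (2 / (E + 1) : ℝ) ^ 2 else 0 := by
    intro l _
    unfold tt
    split_ifs
    · refine pow_le_pow_left₀ (by positivity) ?_ 2
      rw [div_le_div_iff₀ (by positivity) p]
      have : rr a ^ l ≤ 1 := pow_le_one₀ h0.le (rr_le a)
      nlinarith
    · simp
  refine (sum_le_sum h2).trans ?_
  rw [← sum_filter, sum_const, nsmul_eq_mul]
  have h3 : (((range N).filter fun l => l < E + 1).card : ℝ) ≤ E + 1 := by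
    have : ((range N).filter fun l => l < E + 1).card ≤ (range (E + 1)).card :=
      card_le_card fun l hl => mem_range.2 (mem_filter.1 hl).2
    rw [card_range] at this
    exact_mod_cast this
  refine (mul_le_mul_of_nonneg_right h3 (sq_nonneg _)).trans (le_of_eq ?_)
  field_simp
  norm_num

theorem serB (a E : ℕ) (h : PowerSeries ℂ) (n : ℕ) :
    ∑ j ∈ range (n + 1), ((rr a ^ j : ℝ) : ℂ) * (if E ≤ j + (n - j) then
      PowerSeries.coeff (j + (n - j) - E) h else 0) * (tt a E (n - j) : ℂ) =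
      PowerSeries.coeff n (PowerSeries.X ^ E * dil a h) := by
  rw [PowerSeries.coeff_X_pow_mul']
  have r0 : ((rr a : ℝ) : ℂ) ≠ 0 := Complex.ofReal_ne_zero.2 (rr_pos a).ne'
  have p : (E : ℂ) + 1 ≠ 0 := Nat.cast_add_one_ne_zero E
  split_ifs with c
  · obtain ⟨i, rfl⟩ := Nat.exists_eq_add_of_le c
    have e : ∀ j ∈ range (E + i + 1), ((rr a ^ j : ℝ) : ℂ) * (if E ≤ j + (E + i - j) then
        PowerSeries.coeff (j + (E + i - j) - E) h else 0) * (tt a E (E + i - j) : ℂ) =
        if i ≤ j then ((rr a : ℝ) : ℂ) ^ i * PowerSeries.coeff i h / (E + 1) else 0 := by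
      intro j hj
      have hj' := mem_range.1 hj
      have e1 : j + (E + i - j) = E + i := by omega
      rw [e1, if_pos c, Nat.add_sub_cancel_left, tt]
      by_cases k : i ≤ j
      · rw [if_pos k, if_pos (by omega)]
        have e2 : ((rr a : ℝ) : ℂ) ^ j * ((rr a : ℝ) : ℂ) ^ (E + i - j) =
            ((rr a : ℝ) : ℂ) ^ E * ((rr a : ℝ) : ℂ) ^ i := by
          rw [← pow_add, e1, pow_add]
        push_cast
        field_simp
        linear_combination PowerSeries.coeff i h * e2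
      · rw [if_neg k, if_neg (by omega)]
        simp
    have e3 : (range (E + i + 1)).filter (fun j => i ≤ j) = Ico i (E + i + 1) := by
      ext j
      simp only [mem_filter, mem_range, mem_Ico]
      tauto
    have e4 : E + i + 1 - i = E + 1 := by omega
    rw [sum_congr rfl e, ← sum_filter, e3, sum_const, Nat.card_Ico, e4, Nat.add_sub_cancel_left,
      coeff_dil, nsmul_eq_mul]
    push_cast
    field_simp
  · refine sum_eq_zero fun j hj => ?_
    have := mem_range.1 hj
    rw [if_neg (by omega), mul_zero, zero_mul]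

end FAR1

open FAR1 CONV in
theorem far1 (hT : S_TENS) : S_FAR1 := by
  intro L a v c u K b V ψ h hL hLa hv hK hu hV hc hh hψ
  obtain ⟨E, rfl⟩ : ∃ E, L = E + 1 := ⟨L - 1, by omega⟩
  have hb := hh.nonneg
  refine ⟨conv (fun m k => (v (E + m) : ℂ) * u (E + m) k * (c k : ℂ))
    (fun j l => ((rr a ^ j : ℝ) : ℂ) * (if E ≤ j + l then PowerSeries.coeff (j + l - E) h else 0) *
      (tt a E l : ℂ)), fun n => ?_, fun N x y hx hy => ?_⟩
  · have e : ψ = PowerSeries.X ^ E * PowerSeries.mk fun i =>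
        ∑ j ∈ range (i + 1), (v (E + j) : ℂ) * u (E + j) (i - j) * (c (i - j) : ℂ) := by
      ext n
      rw [PowerSeries.coeff_X_pow_mul', hψ]
      split_ifs with k
      · obtain ⟨i, rfl⟩ := Nat.exists_eq_add_of_le k
        rw [Nat.add_sub_cancel_left, PowerSeries.coeff_mk, add_assoc, sum_range_add,
          sum_eq_zero (s := range E) (fun j hj => by
            rw [hv j (by have := mem_range.1 hj; omega)]; simp), zero_add]
        exact sum_congr rfl fun j _ => by rw [Nat.add_sub_add_left]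
      · exact sum_eq_zero fun j hj => by
          rw [hv j (by have := mem_range.1 hj; omega)]; simp
    rw [ser, e, mul_comm (PowerSeries.X ^ E), mul_assoc, PowerSeries.coeff_mul,
      Finset.Nat.sum_antidiagonal_eq_sum_range_succ (fun i j => PowerSeries.coeff i
        (PowerSeries.mk fun i => ∑ j ∈ range (i + 1),
          (v (E + j) : ℂ) * u (E + j) (i - j) * (c (i - j) : ℂ)) *
        PowerSeries.coeff j (PowerSeries.X ^ E * dil a h))]
    exact sum_congr rfl fun i _ => by rw [PowerSeries.coeff_mk, ← serB]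
  · have key := hT _ _ _ _ _ _ _ _ _ _ _ _ hK hb (shiftOp hu E N) (hh N N E)
      (fun i => (v (E + i.1) : ℂ) * ((rr a ^ i.2 : ℝ) : ℂ) * cut N x i)
      (fun k => (c k.1 : ℂ) * (tt a E k.2 : ℂ) * cut N y k)
    have hV' : ∑ m ∈ range N, v (E + m) ^ 2 ≤ V := by
      refine le_trans ?_ (hV (E + N))
      rw [sum_range_add]
      exact le_add_of_nonneg_left (sum_nonneg fun _ _ => sq_nonneg _)
    have V0 : 0 ≤ V := by simpa using hV 0
    have a1 := Real.sqrt_le_sqrt (wt N (w := fun m => v (E + m)) (w' := fun j => rr a ^ j) hV'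
      (geo a N) (cut_le N hx))
    have a2 := Real.sqrt_le_sqrt (wt N (hc N) (tt_sq a N (E := E) (by omega)) (cut_le N hy))
    rw [form]
    refine le_trans (le_of_eq (congrArg _ (sum_congr rfl fun i _ => sum_congr rfl fun k _ => ?_)))
      (key.trans ?_)
    · ring
    · have e : √(32 * V * 4 ^ a / ((E + 1 : ℕ) : ℝ)) =
          √(V * (2 * 4 ^ a)) * √(4 * (4 / (E + 1))) := by
        rw [← Real.sqrt_mul (by positivity)]
        congr 1
        push_cast
        ring
      rw [e, ← mul_assoc]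
      gcongr

end Pool.Agent.MP_fe3998_an.IV
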