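import Pool.Agent.MP_fe3998_an.IV.Spec

/-!
The product of a difference of dilations with a dilation of a bounded function.
-/

set_option autoImplicit false

namespace Pool.Agent.MP_fe3998_an.IV

open Finset Polynomial Pool.Agent.MP_fe3998_an.PR Filter Topology

namespace FARI

theorem rr_mem (a : ℕ) : 0 ≤ rr a ∧ rr a ≤ 1 := by
  unfold rr
  have h1 : (1 : ℝ) ≤ 4 ^ a := one_le_pow₀ (by norm_num)
  have h2 : (1 : ℝ) / (2 * 4 ^ a) ≤ 1 := by
    rw [div_le_one (by positivity)]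
    linarith
  have h3 : (0 : ℝ) ≤ 1 / (2 * 4 ^ a) := by positivity
  constructor <;> linarith

theorem pow_mem (a m : ℕ) : 0 ≤ rr a ^ m ∧ rr a ^ m ≤ 1 :=
  ⟨pow_nonneg (rr_mem a).1 m, pow_le_one₀ (rr_mem a).1 (rr_mem a).2⟩

theorem ident (r r' : ℂ) (w : ℕ → ℂ) (u : ℕ → ℕ → ℂ) (hu : ∀ m k, u m k = u k m) (n : ℕ) :
    (r' ^ n - r ^ n) * ∑ j ∈ range (n + 1), w j * u j (n - j) * w (n - j) =
      ∑ j ∈ range (n + 1), w j * (r' ^ j - r ^ j) * u j (n - j) *
        ((r' ^ (n - j) + r ^ (n - j)) * w (n - j)) := by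
  have h1 := Finset.sum_range_reflect
    (fun j => w j * (r' ^ j - r ^ j) * u j (n - j) * (r ^ (n - j) * w (n - j))) (n + 1)
  have h2 : ∑ j ∈ range (n + 1), w j * (r' ^ j - r ^ j) * u j (n - j) *
      ((r' ^ (n - j) + r ^ (n - j)) * w (n - j)) =
      ∑ j ∈ range (n + 1), w j * (r' ^ j - r ^ j) * u j (n - j) * (r' ^ (n - j) * w (n - j)) +
      ∑ j ∈ range (n + 1), w j * (r' ^ j - r ^ j) * u j (n - j) * (r ^ (n - j) * w (n - j)) := by
    rw [← Finset.sum_add_distrib]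
    exact Finset.sum_congr rfl fun j _ => by ring
  rw [h2, ← h1, ← Finset.sum_add_distrib, Finset.mul_sum]
  refine Finset.sum_congr rfl fun j hj => ?_
  obtain ⟨k, rfl⟩ : ∃ k, n = j + k := ⟨n - j, by have := mem_range.1 hj; omega⟩
  have e1 : j + k + 1 - 1 - j = k := by omega
  have e2 : j + k - j = k := by omega
  have e3 : j + k - k = j := by omega
  simp only [e1, e2, e3]
  rw [hu k j]
  ring

theorem geo (a : ℕ) : ∑ i ∈ range (a + 1), (32 : ℝ) * (1 / 2) ^ (a - i) ≤ 64 := by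
  have h1 := Finset.sum_range_reflect (fun j => (32 : ℝ) * (1 / 2) ^ j) (a + 1)
  simp only [Nat.add_sub_cancel] at h1
  rw [h1, ← Finset.mul_sum]
  have := sum_geometric_two_le (a + 1)
  linarith

end FARI

open FARI in
theorem fari (hF : S_FAR1) (hK : S_KAP) : S_FARI := by
  intro a a' φ h w u K b ε ha ⟨k0, hw, hu, hs, hφ⟩ hb hε
  have b0 := hb.nonneg
  obtain ⟨v, hv⟩ : ∃ v : ℕ → ℕ → ℝ, ∀ i m, v i m =
      if 1 ≤ m ∧ min a (Nat.log 4 m) = i then w m * (rr a' ^ m - rr a ^ m) else 0 :=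
    ⟨_, fun _ _ => rfl⟩
  have v1 : ∀ i m, v i m ^ 2 ≤ w m ^ 2 := fun i m => by
    rw [hv]
    split_ifs
    · rw [mul_pow]
      refine mul_le_of_le_one_right (sq_nonneg _) ?_
      have h1 := pow_mem a m
      have h2 := pow_mem a' m
      nlinarith
    · rw [zero_pow two_ne_zero]
      exact sq_nonneg _
  have v2 : ∀ i, Summable fun m => v i m ^ 2 := fun i =>
    summable_of_sum_range_le (c := 1) (fun _ => sq_nonneg _) fun N =>
      (Finset.sum_le_sum fun m _ => v1 i m).trans (hw N)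
  have v3 : ∀ (f : ℕ → ℝ → ℝ) (m : ℕ), (∀ i, f i 0 = 0) → ∑ i ∈ range (a + 1), f i (v i m) =
      f (min a (Nat.log 4 m)) (w m * (rr a' ^ m - rr a ^ m)) := fun f m hf => by
    rw [Finset.sum_eq_single (min a (Nat.log 4 m))]
    · rw [hv]
      rcases Nat.eq_zero_or_pos m with rfl | hm
      · simp
      · rw [if_pos ⟨hm, rfl⟩]
    · intro i _ hi
      rw [hv, if_neg fun k => hi k.2.symm, hf]
    · intro k
      exact (k (mem_range.2 (Nat.lt_succ_of_le (min_le_left _ _)))).elim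
  have c1 : ∀ N, ∑ k ∈ range N, ((rr a' ^ k + rr a ^ k) * w k) ^ 2 ≤ 4 := fun N => by
    have : ∀ k ∈ range N, ((rr a' ^ k + rr a ^ k) * w k) ^ 2 ≤ 4 * w k ^ 2 := fun k _ => by
      rw [mul_pow]
      refine mul_le_mul_of_nonneg_right ?_ (sq_nonneg _)
      have h1 := pow_mem a k
      have h2 := pow_mem a' k
      nlinarith
    refine (Finset.sum_le_sum this).trans ?_
    rw [← Finset.mul_sum]
    linarith [hw N]
  have e : dil a' φ - dil a φ = ∑ i ∈ range (a + 1), PowerSeries.mk fun n =>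
      ∑ j ∈ range (n + 1), (v i j : ℂ) * u j (n - j) *
        (((rr a' ^ (n - j) + rr a ^ (n - j)) * w (n - j) : ℝ) : ℂ) := by
    ext n
    rw [map_sub, coeff_dil, coeff_dil, ← sub_mul, hφ, ident _ _ (fun j => (w j : ℂ)) u hs,
      map_sum]
    simp only [PowerSeries.coeff_mk]
    rw [Finset.sum_comm]
    refine Finset.sum_congr rfl fun j _ => ?_
    rw [← Finset.sum_mul, ← Finset.sum_mul, ← Complex.ofReal_sum,
      v3 (fun _ x => x) j fun _ => rfl]
    push_cast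
    ring
  rw [e, Finset.sum_mul]
  refine (RepI.sum _ _ (fun i => K * b * √(32 * (∑' m, v i m ^ 2) * 4 ^ a / ((4 ^ i : ℕ) : ℝ)))
    fun i hi => ?_).mono ?_
  · have hi' : i ≤ a := Nat.lt_succ_iff.1 (mem_range.1 hi)
    refine hF (4 ^ i) a (v i) (fun k => (rr a' ^ k + rr a ^ k) * w k) u K b _ _ h
      (Nat.one_le_pow _ _ (by norm_num)) (Nat.pow_le_pow_right (by norm_num) hi')
      (fun m hm => ?_) k0 hu (fun N => (v2 i).sum_le_tsum _ fun _ _ => sq_nonneg _) c1 hb
      fun n => PowerSeries.coeff_mk _ _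
    rw [hv, if_neg]
    rintro ⟨k1, k2⟩
    have k3 : i ≤ Nat.log 4 m := k2 ▸ min_le_right _ _
    have k4 := (Nat.pow_le_pow_right (show 0 < 4 by norm_num) k3).trans
      (Nat.pow_log_le_self 4 (show m ≠ 0 by omega))
    omega
  · have V0 : ∀ i, 0 ≤ ∑' m, v i m ^ 2 := fun i => tsum_nonneg fun _ => sq_nonneg _
    have h1 : ∑ i ∈ range (a + 1), 8 ^ (a - i) * ∑' m, v i m ^ 2 ≤ 32 * ε := by
      have h2 := hasSum_sum (s := range (a + 1))
        fun i _ => (v2 i).hasSum.mul_left ((8 : ℝ) ^ (a - i))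
      refine le_of_tendsto' h2.tendsto_sum_nat fun N => ?_
      refine le_trans (Finset.sum_le_sum fun m _ => ?_)
        ((Finset.mul_sum _ _ _).ge.trans (mul_le_mul_of_nonneg_left (hε N) (by norm_num)))
      rw [v3 (fun i x => 8 ^ (a - i) * x ^ 2) m fun _ => by simp]
      rcases Nat.eq_zero_or_pos m with rfl | hm
      · simp [eta]
      · have := mul_le_mul_of_nonneg_left (hK a a' m ha hm) (sq_nonneg (w m))
        rw [mul_pow]
        linarith
    have h3 : ∀ i ∈ range (a + 1), √(32 * (∑' m, v i m ^ 2) * 4 ^ a / ((4 ^ i : ℕ) : ℝ)) =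
        √(8 ^ (a - i) * ∑' m, v i m ^ 2) * √(32 * (1 / 2) ^ (a - i)) := fun i hi => by
      have hi' : i ≤ a := Nat.lt_succ_iff.1 (mem_range.1 hi)
      rw [← Real.sqrt_mul (mul_nonneg (by positivity) (V0 i))]
      congr 1
      obtain ⟨k, rfl⟩ := Nat.exists_eq_add_of_le hi'
      have e8 : (8 : ℝ) ^ k * (1 / 2) ^ k = 4 ^ k := by
        rw [← mul_pow]
        norm_num
      rw [Nat.add_sub_cancel_left, pow_add, ← e8]
      push_cast
      field_simp
    rw [← Finset.mul_sum, Finset.sum_congr rfl h3]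
    have h4 := Real.sum_sqrt_mul_sqrt_le (range (a + 1))
      (f := fun i => 8 ^ (a - i) * ∑' m, v i m ^ 2) (g := fun i => 32 * (1 / 2) ^ (a - i))
      (fun i => mul_nonneg (by positivity) (V0 i)) fun i => by positivity
    have ε0 : 0 ≤ ε := by simpa using hε 0
    have h5 : √(32 * ε) * √64 ≤ 46 * √ε := by
      rw [← Real.sqrt_mul (by positivity)]
      refine Real.sqrt_le_iff.2 ⟨by positivity, ?_⟩
      rw [mul_pow, Real.sq_sqrt ε0]
      linarith
    have h6 := h4.trans ((mul_le_mul (Real.sqrt_le_sqrt h1) (Real.sqrt_le_sqrt (geo a))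
      (Real.sqrt_nonneg _) (Real.sqrt_nonneg _)).trans h5)
    exact (mul_le_mul_of_nonneg_left h6 (mul_nonneg k0 b0)).trans_eq (by ring)

end Pool.Agent.MP_fe3998_an.IV
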