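import Pool.Agent.MP_fe3998_an.IV.Spec

/-! The upper bound for the norm of the inverse. -/

set_option autoImplicit false

namespace Pool.Agent.MP_fe3998_an.IV

open Finset Pool.Agent.MP_fe3998_an.PR

namespace FINU

theorem eta_nonneg (a m : ℕ) : 0 ≤ eta a m := by
  unfold eta
  positivity

theorem eta_le (a m : ℕ) : eta a m ≤ 1 := by
  unfold eta
  exact (div_le_one (by positivity)).2 (le_add_of_nonneg_right (Real.sqrt_nonneg _))

theorem eta_mono {a a' : ℕ} (h : a ≤ a') (m : ℕ) : eta a m ≤ eta a' m := by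
  unfold eta
  rw [div_le_div_iff₀ (by positivity) (by positivity)]
  have h1 : (2 : ℝ) ^ a ≤ 2 ^ a' := pow_le_pow_right₀ one_le_two h
  have h2 := mul_le_mul_of_nonneg_right h1 (Real.sqrt_nonneg (m : ℝ))
  linarith

theorem part {w : ℕ → ℝ} (hw : ∀ N, ∑ m ∈ range N, w m ^ 2 ≤ 1) (a N : ℕ) :
    ∑ m ∈ range N, w m ^ 2 * eta a m ≤ 1 :=
  (sum_le_sum fun m _ => mul_le_of_le_one_right (sq_nonneg _) (eta_le a m)).trans (hw N)

theorem term (w : ℕ → ℝ) (a m : ℕ) : 0 ≤ w m ^ 2 * eta a m :=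
  mul_nonneg (sq_nonneg _) (eta_nonneg a m)

theorem summ {w : ℕ → ℝ} (hw : ∀ N, ∑ m ∈ range N, w m ^ 2 ≤ 1) (a : ℕ) :
    Summable fun m => w m ^ 2 * eta a m :=
  summable_of_sum_range_le (term w a) (part hw a)

theorem diff {w : ℕ → ℝ} (hw : ∀ N, ∑ m ∈ range N, w m ^ 2 ≤ 1) {a a' : ℕ} (h : a ≤ a') (N : ℕ) :
    ∑ m ∈ range N, w m ^ 2 * (eta a' m - eta a m) ≤
      ∑' m, w m ^ 2 * eta a' m - ∑' m, w m ^ 2 * eta a m := by
  rw [← (summ hw a').tsum_sub (summ hw a)]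
  simp only [mul_sub]
  exact ((summ hw a').sub (summ hw a)).sum_le_tsum _ fun m _ =>
    sub_nonneg.2 (mul_le_mul_of_nonneg_left (eta_mono h m) (sq_nonneg _))

theorem dil_mul (a : ℕ) (f g : PowerSeries ℂ) : dil a (f * g) = dil a f * dil a g := map_mul _ _ _

theorem dil_one (a : ℕ) : dil a 1 = 1 := map_one _

end FINU

open FINU

theorem finu (hS : S_SUP) (hY : S_SYMI) (hA : S_ANA) (hD : S_DBM) (hH : S_HBS) (hB : S_BAND)
    (hF : S_FARI) (hT : S_STEP) (hU : S_UPI) : S_FINU := by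
  obtain ⟨C0, hC0⟩ : ∃ C0 : ℝ, C0 = 2 * 65536 * 46 * 256 := ⟨_, rfl⟩
  have C0p : 0 < C0 := by rw [hC0]; norm_num
  refine ⟨4 * C0 ^ 2 + 8, by positivity, fun φ A δ hδ hφ hlow => ?_⟩
  have hs : ∀ z : ℂ, ‖z‖ < 1 → Summable (fun n : ℕ => PowerSeries.coeff n φ * z ^ n) ∧
      ‖∑' n : ℕ, PowerSeries.coeff n φ * z ^ n‖ ≤ A := by
    obtain ⟨γ, h2, h3⟩ := hφ
    simp only [h2]
    exact hS γ A h3
  have hδA : δ ≤ A := (hlow 0 (by simp)).trans (hs 0 (by simp)).2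
  obtain ⟨hinv, hdb⟩ := hA φ δ hδ fun z hz => ⟨_, (hs z hz).1.hasSum, hlow z hz⟩
  generalize φ⁻¹ = g at hinv hdb ⊢
  have hb := hH g _ hdb
  have hbb := hH _ _ (hD g g _ _ hdb hdb)
  obtain ⟨w, u, hfac⟩ := hY φ A hφ
  have hw := hfac.2.1
  have e : (4 * C0 ^ 2 + 8) * A ^ 2 / δ ^ 3 = (2 * C0 ^ 2 + 4) * (A * δ⁻¹) ^ 2 * (2 * δ⁻¹) := by
    field_simp
    ring
  have y1 : 1 ≤ A * δ⁻¹ := by rw [← div_eq_mul_inv, one_le_div hδ]; exact hδA
  have b0 : 0 < δ⁻¹ := inv_pos.2 hδ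
  rw [e]
  generalize δ⁻¹ = b at hb hbb y1 b0 ⊢
  have x0 : 0 < C0 * (A * b) := by positivity
  obtain ⟨R, hR⟩ : ∃ R : ℕ, R = ⌈(C0 * (A * b)) ^ 2⌉₊ := ⟨_, rfl⟩
  have R1 : 1 ≤ R := by rw [hR]; exact Nat.ceil_pos.2 (by positivity)
  have R0 : (0 : ℝ) < R := by exact_mod_cast R1
  have R2 : (C0 * (A * b)) ^ 2 ≤ R := by rw [hR]; exact Nat.le_ceil _
  have R3 : (R : ℝ) ≤ (C0 * (A * b)) ^ 2 + 1 := by
    rw [hR]; exact (Nat.ceil_lt_add_one (by positivity)).le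
  have s1 : C0 * (A * b) * √(1 / (R : ℝ)) ≤ 1 := by
    rw [← pow_le_one_iff_of_nonneg (by positivity) two_ne_zero, mul_pow,
      Real.sq_sqrt (by positivity), mul_one_div, div_le_one R0]
    exact R2
  have s0 : 0 ≤ A * b * √(1 / (R : ℝ)) := by positivity
  refine (hU g (fun a => ∑' m, w m ^ 2 * eta a m) (2 * b) R
    (fun a a' h => sub_nonneg.1 (le_trans (by simp) (diff hw h 0)))
    (fun a => tsum_nonneg (term w a)) (fun a => Real.tsum_le_of_sum_range_le (term w a) (part hw a))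
    R1 ((hB g b 0 hb).2.mono (by simp)) (fun a => (hB g b a hb).1) fun a a' h hG => ?_).mono ?_
  · have hε := fun N => (diff hw h N).trans hG
    have f1 := (hF a a' φ (g * g) w u _ _ _ h hfac hbb hε).neg
    have f2 := (hF a a' φ g w u _ _ _ h hfac hb hε).neg
    have i1 : dil a φ * dil a g = 1 := by rw [← dil_mul, hinv, dil_one]
    have i2 : dil a' φ * dil a' g = 1 := by rw [← dil_mul, hinv, dil_one]
    have f3 := (hB g b a' hb).2.add (hB g b a hb).2.neg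
    rw [← sub_eq_add_neg] at f3
    rw [hC0] at s1
    refine (hT _ _ _ _ _ _ ?_ f1 f2 (by linarith) f3).mono ?_
    · rw [dil_mul]
      linear_combination dil a g * i2 - dil a' g * i1
    · have h1 : 46 * 256 * (A * b * √(1 / (R : ℝ))) ≤ 1 := by linarith
      have h2 := mul_le_mul_of_nonneg_left h1 b0.le
      linarith
  · refine mul_le_mul_of_nonneg_right ?_ (by positivity)
    have h1 : 1 ≤ (A * b) ^ 2 := one_le_pow₀ y1
    rw [mul_pow] at R3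
    linarith

end Pool.Agent.MP_fe3998_an.IV
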