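import Pool.Agent.MP_fe3998_an.IV.Spec

/-! Bounded series have bounded Hankel matrices; products of bounded series. -/

set_option autoImplicit false

namespace Pool.Agent.MP_fe3998_an.IV

open Finset Polynomial Pool.Agent.MP_fe3998_an.PR Filter Topology

theorem dbm : S_DBM := by
  intro g h a b hg hh z hz
  obtain ⟨s, s1, s2⟩ := hg z hz
  obtain ⟨t, t1, t2⟩ := hh z hz
  have n1 := summable_norm_iff.2 s1.summable
  have n2 := summable_norm_iff.2 t1.summable
  have e : (fun n : ℕ => PowerSeries.coeff n (g * h) * z ^ n) = fun n : ℕ =>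
      ∑ kl ∈ antidiagonal n, (PowerSeries.coeff kl.1 g * z ^ kl.1) *
        (PowerSeries.coeff kl.2 h * z ^ kl.2) := by
    funext n
    rw [PowerSeries.coeff_mul, sum_mul]
    refine sum_congr rfl fun kl hkl => ?_
    rw [← mem_antidiagonal.1 hkl, pow_add]
    ring
  refine ⟨s * t, ?_, ?_⟩
  · rw [e, ← s1.tsum_eq, ← t1.tsum_eq,
      tsum_mul_tsum_eq_tsum_sum_antidiagonal_of_summable_norm n1 n2]
    exact (summable_norm_sum_mul_antidiagonal_of_summable_norm n1 n2).of_norm.hasSum
  · rw [norm_mul]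
    exact mul_le_mul s2 t2 (norm_nonneg _) ((norm_nonneg _).trans s2)

namespace HBS

lemma coeffP (a : ℕ → ℂ) (N D m : ℕ) (hm : m < N) :
    (∑ n ∈ range N, monomial (n + D) (a n) : ℂ[X]).coeff m =
      if D ≤ m then a (m - D) else 0 := by
  rw [finset_sum_coeff]
  simp only [coeff_monomial]
  split_ifs with e
  · rw [sum_eq_single (m - D), if_pos (by omega)]
    · intro n _ hn
      exact if_neg (by omega)
    · intro hn
      exact absurd (mem_range.2 (by omega)) hn
  · exact sum_eq_zero fun n _ => if_neg (by omega)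

lemma supP (g : PowerSeries ℂ) (b r : ℝ) (hg : DB g b) (h0 : 0 ≤ r) (h1 : r < 1) (N D : ℕ) :
    SupB (∑ n ∈ range N, monomial (n + D) (PowerSeries.coeff n g * (r : ℂ) ^ n))
      (b + ∑' k, ‖PowerSeries.coeff (k + N) g * (r : ℂ) ^ (k + N)‖) := by
  intro z hz
  have hr : ‖(r : ℂ) * z‖ < 1 := by
    rw [norm_mul, hz, mul_one, Complex.norm_real, Real.norm_of_nonneg h0]
    exact h1
  obtain ⟨s, s1, s2⟩ := hg _ hr
  have n1 := (summable_nat_add_iff N).2 (summable_norm_iff.2 s1.summable)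
  have e1 : (∑ n ∈ range N, monomial (n + D) (PowerSeries.coeff n g * (r : ℂ) ^ n) : ℂ[X]).eval z =
      z ^ D * ∑ n ∈ range N, PowerSeries.coeff n g * ((r : ℂ) * z) ^ n := by
    rw [eval_finset_sum, mul_sum]
    refine sum_congr rfl fun n _ => ?_
    rw [eval_monomial, mul_pow, pow_add]
    ring
  have e2 := s1.summable.sum_add_tsum_nat_add N
  rw [s1.tsum_eq] at e2
  have e3 := norm_tsum_le_tsum_norm n1
  have e4 : ∑' k, ‖PowerSeries.coeff (k + N) g * ((r : ℂ) * z) ^ (k + N)‖ =
      ∑' k, ‖PowerSeries.coeff (k + N) g * (r : ℂ) ^ (k + N)‖ :=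
    tsum_congr fun k => by simp [norm_mul, norm_pow, hz]
  rw [e1, norm_mul, norm_pow, hz, one_pow, one_mul, eq_sub_of_add_eq e2]
  exact (norm_sub_le _ _).trans (add_le_add s2 (e3.trans e4.le))

lemma dilated (hL : S_LB) (g : PowerSeries ℂ) (b r : ℝ) (hg : DB g b) (h0 : 0 ≤ r) (h1 : r < 1)
    (R S D : ℕ) : OpB (range R) (range S) (fun j l => if D ≤ j + l then
      PowerSeries.coeff (j + l - D) g * (r : ℂ) ^ (j + l - D) else 0) b := by
  intro x y
  have t := tendsto_sum_nat_add fun n => ‖PowerSeries.coeff n g * (r : ℂ) ^ n‖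
  have t' := ((t.const_add b).mul_const √(∑ i ∈ range R, ‖x i‖ ^ 2)).mul_const
    √(∑ k ∈ range S, ‖y k‖ ^ 2)
  rw [add_zero] at t'
  refine ge_of_tendsto t' ?_
  filter_upwards [eventually_ge_atTop (R + S)] with N hN
  refine le_of_eq_of_le ?_ (hL _ _ (supP g b r hg h0 h1 N D) R S x y)
  congr 1
  refine sum_congr rfl fun j hj => sum_congr rfl fun l hl => ?_
  have a1 := mem_range.1 hj
  have a2 := mem_range.1 hl
  beta_reduce
  rw [coeffP (fun n => PowerSeries.coeff n g * (r : ℂ) ^ n) N D (j + l) (by omega)]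

end HBS

theorem hbs (hL : S_LB) : S_HBS := by
  intro g b hg R S D x y
  have c : Continuous fun r : ℝ => ‖∑ j ∈ range R, ∑ l ∈ range S, (if D ≤ j + l then
      PowerSeries.coeff (j + l - D) g * (r : ℂ) ^ (j + l - D) else 0) * x j * y l‖ := by
    refine (continuous_finset_sum _ fun j _ => continuous_finset_sum _ fun l _ => ?_).norm
    split_ifs
    · fun_prop
    · fun_prop
  have t := (c.tendsto 1).mono_left (nhdsWithin_le_nhds (s := Set.Iio 1))
  simp only [Complex.ofReal_one, one_pow, mul_one] at t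
  refine le_of_tendsto t ?_
  filter_upwards [Ioo_mem_nhdsLT (show (0 : ℝ) < 1 by norm_num)] with r hr
  exact HBS.dilated hL g b r hg hr.1.le hr.2 R S D x y

end Pool.Agent.MP_fe3998_an.IV
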