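import Pool.Agent.MP_fe3998_an.IV.Spec

/-! The lower bound for the test functional on the inverse. -/

set_option autoImplicit false

namespace Pool.Agent.MP_fe3998_an.IV

open Finset Polynomial Pool.Agent.MP_fe3998_an.PR

theorem hlow (hP : S_PAIRG) (hS : S_SUPH) (hH : S_HBS) (hD : S_DBM) : S_HLOW := by
  intro V M N k J f Φ g hM hk hJ hV hf hN hΦ hg h1 h2
  obtain ⟨H, hH'⟩ : ∃ H : PowerSeries ℂ → ℂ, ∀ u, H u =
      ∑ n ∈ range N, hh V M (fun c => ∑ i ∈ range k, f i c) n * PowerSeries.coeff n u :=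
    ⟨_, fun _ => rfl⟩
  have st : ∀ j, H ((Φ : PowerSeries ℂ) ^ j * g) =
      (H ((Φ : PowerSeries ℂ) ^ j) + H ((Φ : PowerSeries ℂ) ^ (j + 1) * g)) / 2 := fun j => by
    have e : (Φ : PowerSeries ℂ) ^ j * g + (Φ : PowerSeries ℂ) ^ j * g =
        (Φ : PowerSeries ℂ) ^ j + (Φ : PowerSeries ℂ) ^ (j + 1) * g := by
      linear_combination (Φ : PowerSeries ℂ) ^ j * hg
    rw [eq_div_iff two_ne_zero, mul_two]
    simp only [hH', ← sum_add_distrib, ← mul_add, ← map_add, e]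
  have ex : ∀ j, H g = ∑ i ∈ range j, H ((Φ : PowerSeries ℂ) ^ i) / 2 ^ (i + 1) +
      H ((Φ : PowerSeries ℂ) ^ j * g) / 2 ^ j := fun j => by
    induction j with
    | zero => simp
    | succ j ih => rw [ih, sum_range_succ, st j]; ring
  have db : ∀ j, DB ((Φ : PowerSeries ℂ) ^ j * g) 1 := fun j => by
    induction j with
    | zero => simpa using h2
    | succ j ih => simpa only [pow_succ', mul_assoc, mul_one] using hD _ _ _ _ h1 ih
  have rem := hS V M N _ _ 1 hM (hH _ _ (db J)) hN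
  rw [← hH', mul_one] at rem
  have pr : ∀ j, ∃ r : ℕ, j < J → H ((Φ : PowerSeries ℂ) ^ j) / 2 ^ (j + 1) =
      ((r / (k ^ j * 2 ^ (j + 1)) : ℝ) : ℂ) ∧ (j = k → M ≤ r) := fun j => by
    by_cases hj : j < J
    swap
    · exact ⟨0, fun h => absurd h hj⟩
    obtain ⟨r, a1, a2⟩ := hP V M N k j f hM (by omega) hf hN
    refine ⟨r, fun _ => ⟨?_, a2⟩⟩
    have : H ((Φ : PowerSeries ℂ) ^ j) = ((k : ℂ)⁻¹) ^ j * r := by
      rw [hH', ← a1, mul_sum]
      refine sum_congr rfl fun n _ => ?_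
      rw [← Polynomial.coe_pow, Polynomial.coeff_coe, hΦ, mul_pow, ← C_pow, coeff_C_mul]
      ring
    rw [this]
    push_cast
    ring
  choose r hr using pr
  have e1 : ∑ i ∈ range J, H ((Φ : PowerSeries ℂ) ^ i) / 2 ^ (i + 1) =
      ((∑ i ∈ range J, r i / (k ^ i * 2 ^ (i + 1)) : ℝ) : ℂ) := by
    rw [Complex.ofReal_sum]
    exact sum_congr rfl fun i hi => (hr i (mem_range.1 hi)).1
  have e2 : (M : ℝ) / (k ^ k * 2 ^ (k + 1)) ≤ ∑ i ∈ range J, (r i : ℝ) / (k ^ i * 2 ^ (i + 1)) := by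
    refine le_trans ?_ (single_le_sum (f := fun i => (r i : ℝ) / (k ^ i * 2 ^ (i + 1)))
      (fun i _ => by positivity) (mem_range.2 hJ))
    have : (M : ℝ) ≤ r k := by exact_mod_cast (hr k hJ).2 rfl
    gcongr
  have e3 : ‖H ((Φ : PowerSeries ℂ) ^ J * g) / 2 ^ J‖ ≤ M * √V / 2 ^ J := by
    rw [norm_div, norm_pow, Complex.norm_two]
    gcongr
  have e4 := norm_sub_le (H g) (H ((Φ : PowerSeries ℂ) ^ J * g) / 2 ^ J)
  rw [sub_eq_of_eq_add (ex J), e1, Complex.norm_real, Real.norm_eq_abs] at e4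
  rw [← hH']
  linarith [le_abs_self (∑ i ∈ range J, (r i : ℝ) / (k ^ i * 2 ^ (i + 1)))]

end Pool.Agent.MP_fe3998_an.IV
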