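import Pool.Agent.MP_fe3998_an.IV.Spec

/-! The elementary inequality between the dilation radii and the weights. -/

set_option autoImplicit false

namespace Pool.Agent.MP_fe3998_an.IV

namespace KAP

theorem bern {x : ℝ} (h0 : 0 ≤ x) (h1 : x ≤ 1) (n : ℕ) : (1 - x) ^ n * (1 + n * x) ≤ 1 := by
  induction n with
  | zero => simp
  | succ n ih =>
    have h2 : 0 ≤ (1 - x) ^ n := pow_nonneg (by linarith) n
    have h3 : (1 - x) * (1 + ((n : ℝ) + 1) * x) ≤ 1 + n * x := by
      have h4 : 0 ≤ (n : ℝ) * (x * x) := by positivity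
      have h5 : 0 ≤ x * x := by positivity
      nlinarith
    have h6 := mul_le_mul_of_nonneg_left h3 h2
    push_cast
    rw [pow_succ, mul_assoc]
    exact h6.trans ih

theorem four_pow (a : ℕ) : (4 : ℝ) ^ a = 2 ^ a * 2 ^ a := by
  rw [← mul_pow]
  norm_num

theorem x_pos (a : ℕ) : 0 < 1 / (2 * (4 : ℝ) ^ a) := by positivity

theorem x_le (a : ℕ) : 1 / (2 * (4 : ℝ) ^ a) ≤ 1 := by
  have h : (1 : ℝ) ≤ 4 ^ a := one_le_pow₀ (by norm_num)
  rw [div_le_one (by positivity)]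
  linarith

theorem rr_nonneg (a : ℕ) : 0 ≤ rr a := by
  have := x_le a
  unfold rr
  linarith

theorem rr_le (a : ℕ) : rr a ≤ 1 := by
  have := x_pos a
  unfold rr
  linarith

theorem rr_mono {a a' : ℕ} (h : a ≤ a') : rr a ≤ rr a' := by
  have h1 : (4 : ℝ) ^ a ≤ 4 ^ a' := pow_le_pow_right₀ (by norm_num) h
  have h2 : 1 / (2 * (4 : ℝ) ^ a') ≤ 1 / (2 * 4 ^ a) :=
    one_div_le_one_div_of_le (by positivity) (by linarith)
  unfold rr
  linarith

theorem real1 {I D Y s t : ℝ} (hI : 0 < I) (hD : 2 ≤ D) (hY : 2 * (D * I) ≤ Y) (h1 : I ≤ s)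
    (h2 : s ≤ 2 * I) (h3 : 0 ≤ t) (h4 : t * D ^ 2 ≤ 2) :
    D ^ 3 * t ^ 2 ≤ 32 * (Y / (Y + s) - D * I / (D * I + s)) := by
  have hD0 : 0 < D := by linarith
  have hX : 0 < D * I := mul_pos hD0 hI
  have hs : 0 < s := by linarith
  have hsX : s ≤ D * I := by nlinarith
  have hY0 : 0 < Y := by linarith
  have e1 : 2 * (D * I) / (2 * (D * I) + s) ≤ Y / (Y + s) := by
    rw [div_le_div_iff₀ (by linarith) (by linarith)]
    nlinarith
  have e2 : 2 * (D * I) / (2 * (D * I) + s) - D * I / (D * I + s) =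
      s * (D * I) / ((2 * (D * I) + s) * (D * I + s)) := by
    field_simp
    ring
  have e3 : 1 / (6 * D) ≤ s * (D * I) / ((2 * (D * I) + s) * (D * I + s)) := by
    rw [div_le_div_iff₀ (by linarith) (by positivity)]
    have f1 : (2 * (D * I) + s) * (D * I + s) ≤ (3 * (D * I)) * (2 * (D * I)) :=
      mul_le_mul (by linarith) (by linarith) (by linarith) (by linarith)
    have f2 : I * (D * I * (6 * D)) ≤ s * (D * I * (6 * D)) :=
      mul_le_mul_of_nonneg_right h1 (by positivity)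
    nlinarith
  have e4 : D ^ 3 * t ^ 2 ≤ 32 * (1 / (6 * D)) := by
    rw [mul_one_div, le_div_iff₀ (by linarith)]
    have f1 : 0 ≤ t * D ^ 2 := by positivity
    have f2 : (t * D ^ 2) * (t * D ^ 2) ≤ 2 * 2 := mul_le_mul h4 h4 f1 (by norm_num)
    nlinarith
  linarith

theorem real2 {X Y s q : ℝ} (hX : 0 < X) (hY : 2 * X ≤ Y) (h1 : X ≤ s)
    (h2 : q * (1 + s * s / (Y * Y)) ≤ 1) :
    q ≤ 32 * (Y / (Y + s) - X / (X + s)) := by
  have hs : 0 < s := by linarith
  have hY0 : 0 < Y := by linarith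
  have e2 : Y / (Y + s) - X / (X + s) = s * (Y - X) / ((Y + s) * (X + s)) := by
    field_simp
    ring
  have e3 : Y / (4 * (Y + s)) ≤ s * (Y - X) / ((Y + s) * (X + s)) := by
    rw [div_le_div_iff₀ (by positivity) (by positivity)]
    have f1 : Y * (X + s) ≤ (2 * (Y - X)) * (2 * s) :=
      mul_le_mul (by linarith) (by linarith) (by linarith) (by linarith)
    have f2 := mul_le_mul_of_nonneg_right f1 (show 0 ≤ Y + s by linarith)
    nlinarith
  have e4 : q ≤ Y * Y / (Y * Y + s * s) := by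
    have f1 : 1 + s * s / (Y * Y) = (Y * Y + s * s) / (Y * Y) := by
      field_simp
    rw [f1, ← mul_div_assoc, div_le_one (by positivity)] at h2
    rw [le_div_iff₀ (by positivity)]
    exact h2
  have e5 : Y * Y / (Y * Y + s * s) ≤ 32 * (Y / (4 * (Y + s))) := by
    rw [← mul_div_assoc, div_le_div_iff₀ (by positivity) (by positivity)]
    have f1 : Y * (Y + s) ≤ 8 * (Y * Y + s * s) := by nlinarith [sq_nonneg (Y - s)]
    have f2 := mul_le_mul_of_nonneg_left f1 hY0.le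
    nlinarith
  rw [e2]
  linarith

end KAP

open KAP in
theorem kap : S_KAP := by
  intro a a' m haa hm
  rcases haa.eq_or_lt with rfl | hlt
  · simp
  have hm0 : m ≠ 0 := by omega
  have hY : 2 * (2 : ℝ) ^ a ≤ 2 ^ a' := by
    rw [← pow_succ']
    exact pow_le_pow_right₀ (by norm_num) hlt
  have hth : 0 ≤ rr a' ^ m - rr a ^ m :=
    sub_nonneg.2 (pow_le_pow_left₀ (rr_nonneg a) (rr_mono haa) m)
  have hss : √(m : ℝ) * √(m : ℝ) = m := Real.mul_self_sqrt (Nat.cast_nonneg m)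
  have hlo : (4 : ℝ) ^ Nat.log 4 m ≤ m := by exact_mod_cast Nat.pow_log_le_self 4 hm0
  have hhi : (m : ℝ) ≤ 4 ^ (Nat.log 4 m + 1) := by
    exact_mod_cast (Nat.lt_pow_succ_log_self (by norm_num : 1 < 4) m).le
  unfold eta
  rcases lt_or_ge (Nat.log 4 m) a with hi | hi
  · obtain ⟨k, rfl⟩ := Nat.exists_eq_add_of_lt hi
    set i := Nat.log 4 m with hidef
    have e0 : i + k + 1 - min (i + k + 1) i = k + 1 := by omega
    have e1 : (2 : ℝ) ^ (i + k + 1) = 2 ^ (k + 1) * 2 ^ i := by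
      rw [← pow_add]
      congr 1
      omega
    have e2 : (8 : ℝ) ^ (k + 1) = (2 ^ (k + 1)) ^ 3 := by
      rw [← pow_mul, mul_comm, pow_mul]
      norm_num
    have hI : (0 : ℝ) < 2 ^ i := by positivity
    have hD : (2 : ℝ) ≤ 2 ^ (k + 1) := by
      have : (1 : ℝ) ≤ 2 ^ k := one_le_pow₀ (by norm_num)
      rw [pow_succ]
      linarith
    have h1 : (2 : ℝ) ^ i ≤ √(m : ℝ) := by
      apply Real.le_sqrt_of_sq_le
      rw [sq, ← four_pow]
      exact hlo
    have h2 : √(m : ℝ) ≤ 2 * 2 ^ i := by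
      apply Real.sqrt_le_iff.2
      refine ⟨by positivity, ?_⟩
      rw [← pow_succ', sq, ← four_pow]
      exact hhi
    have h3 : 1 - m * (1 / (2 * (4 : ℝ) ^ (i + k + 1))) ≤ rr (i + k + 1) ^ m := by
      have := one_add_mul_le_pow (a := -(1 / (2 * (4 : ℝ) ^ (i + k + 1))))
        (by have := x_le (i + k + 1); linarith) m
      unfold rr
      rw [sub_eq_add_neg, sub_eq_add_neg, ← mul_neg]
      exact this
    have h4 : rr a' ^ m ≤ 1 := pow_le_one₀ (rr_nonneg a') (rr_le a')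
    have h5 : (rr a' ^ m - rr (i + k + 1) ^ m) * (2 ^ (k + 1)) ^ 2 ≤ 2 := by
      have f1 : rr a' ^ m - rr (i + k + 1) ^ m ≤
          4 ^ (i + 1) * (1 / (2 * (4 : ℝ) ^ (i + k + 1))) := by
        have := mul_le_mul_of_nonneg_right hhi (x_pos (i + k + 1)).le
        linarith
      have f2 : 4 ^ (i + 1) * (1 / (2 * (4 : ℝ) ^ (i + k + 1))) * (2 ^ (k + 1)) ^ 2 = 2 := by
        rw [sq, ← four_pow]
        field_simp
        ring
      exact (mul_le_mul_of_nonneg_right f1 (by positivity)).trans f2.le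
    rw [e0, e2, e1]
    rw [e1] at hY
    exact real1 hI hD hY h1 h2 hth h5
  · have e0 : a - min a (Nat.log 4 m) = 0 := by omega
    rw [e0, pow_zero, one_mul]
    have h1 : (2 : ℝ) ^ a ≤ √(m : ℝ) := by
      apply Real.le_sqrt_of_sq_le
      rw [sq, ← four_pow]
      exact (pow_le_pow_right₀ (by norm_num) hi).trans hlo
    refine real2 (by positivity) hY h1 ?_
    have h2 := bern (x_pos a').le (x_le a') (2 * m)
    have h3 : (rr a' ^ m - rr a ^ m) ^ 2 ≤ (1 - 1 / (2 * (4 : ℝ) ^ a')) ^ (2 * m) := by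
      rw [mul_comm 2 m, pow_mul]
      refine pow_le_pow_left₀ hth ?_ 2
      have := pow_nonneg (rr_nonneg a) m
      have e : rr a' = 1 - 1 / (2 * (4 : ℝ) ^ a') := rfl
      rw [← e]
      linarith
    have h4 : 1 + √(m : ℝ) * √(m : ℝ) / (2 ^ a' * 2 ^ a') =
        1 + ((2 * m : ℕ) : ℝ) * (1 / (2 * (4 : ℝ) ^ a')) := by
      rw [hss, ← four_pow]
      push_cast
      field_simp
    rw [h4]
    refine le_trans (mul_le_mul_of_nonneg_right h3 ?_) h2
    have := x_pos a'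
    positivity

end Pool.Agent.MP_fe3998_an.IV
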