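import Pool.Agent.MP_fe3998_an.IV.Spec

/-! Limits of representations and the fixed point step. -/

set_option autoImplicit false

namespace Pool.Agent.MP_fe3998_an.IV

open Finset Polynomial Pool.Agent.MP_fe3998_an.PR Filter Topology

namespace LIMI

theorem entry {γ : ℕ → ℕ → ℂ} {M : ℝ} (h : ∀ N, InjB (range N) (range N) γ M) (m k : ℕ) :
    ‖γ m k‖ ≤ M := by
  have a : ∀ c i : ℕ, ‖(if i = c then 1 else 0 : ℂ)‖ ≤ 1 := fun c i => by split_ifs <;> simp
  have := h (m + k + 1) _ _ (a m) (a k)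
  simpa [show m < m + k + 1 by omega, show k < m + k + 1 by omega, Nat.lt_succ_iff] using this

theorem lim (f : ℕ → ℂ) (B : ℝ) (h : ∀ i, ‖f i‖ ≤ B) :
    ∃ c : ℂ, Tendsto f (hyperfilter ℕ : Filter ℕ) (𝓝 c) := by
  obtain ⟨c, -, hc⟩ := (isCompact_closedBall (0 : ℂ) B).ultrafilter_le_nhds
    ((hyperfilter ℕ).map f) (by
      rw [Ultrafilter.coe_map, le_principal_iff, Filter.mem_map]
      exact univ_mem' fun i => mem_closedBall_zero_iff.2 (h i))
  exact ⟨c, hc⟩

end LIMI

theorem limi : S_LIMI := by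
  intro φ ψ M L h hM hc
  choose γ h1 h2 using h
  obtain ⟨B, hB⟩ := hM.bddAbove_range
  have hb : ∀ m k i, ‖γ i m k‖ ≤ B := fun m k i =>
    (LIMI.entry (h2 i) m k).trans (hB (Set.mem_range_self i))
  choose g hg using fun m k => LIMI.lim (fun i => γ i m k) B (hb m k)
  have hle : (hyperfilter ℕ : Filter ℕ) ≤ atTop := Nat.hyperfilter_le_atTop
  refine ⟨g, fun n => ?_, fun N x y hx hy => ?_⟩
  · refine tendsto_nhds_unique ((hc n).mono_left hle) ?_
    simp only [h1]
    exact tendsto_finsetSum _ fun j _ => hg j (n - j)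
  · refine le_of_tendsto_of_tendsto' (b := (hyperfilter ℕ : Filter ℕ))
      (f := fun i => ‖∑ m ∈ range N, ∑ k ∈ range N, γ i m k * x m * y k‖) ?_
      (hM.mono_left hle) fun i => h2 i N x y hx hy
    exact (tendsto_finsetSum _ fun m _ => tendsto_finsetSum _ fun k _ =>
      ((hg m k).mul_const _).mul_const _).norm

theorem step (hC : S_CONV) (hL : S_LIMI) : S_STEP := by
  intro u a c t s M hu ha hc hs hM
  have one : ∀ X, RepI u X → RepI u (t + X / 2) := by
    intro X hX
    have h1 := ha.add (RepI.mul hC hc hX)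
    rw [← hu] at h1
    refine h1.mono ?_
    have := mul_le_mul_of_nonneg_right hs hX.nonneg
    linarith
  have it : ∀ n : ℕ, RepI u (2 * t + M * (1 / 2) ^ n) := by
    intro n
    induction n with
    | zero => exact hM.mono (by have := ha.nonneg; simp; linarith)
    | succ n ih => exact (one _ ih).mono (le_of_eq (by ring))
  refine hL (fun _ => u) u _ _ it ?_ fun n => tendsto_const_nhds
  have h0 : Tendsto (fun n : ℕ => (1 / 2 : ℝ) ^ n) atTop (𝓝 0) :=
    tendsto_pow_atTop_nhds_zero_of_lt_one (by norm_num) (by norm_num)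
  simpa using (h0.const_mul M).const_add (2 * t)

end Pool.Agent.MP_fe3998_an.IV
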