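import Pool.Agent.MP_fe3998_an.IV.Spec

/-!
The lower example for inverses.
-/

set_option autoImplicit false

namespace Pool.Agent.MP_fe3998_an.IV

open Finset Polynomial Pool.Agent.MP_fe3998_an.PR Filter Topology
open scoped ENNReal

namespace LOWI

theorem repI {P : ℂ[X]} {M : ℝ} (h : Rep P M) : RepI (P : PowerSeries ℂ) M := by
  obtain ⟨γ, N, -, h2, h3⟩ := h
  exact ⟨γ, fun n => by rw [Polynomial.coeff_coe, h2], h3⟩

theorem rep_smul {P : ℂ[X]} {M : ℝ} (a : ℂ) (h : Rep P M) : Rep (C a * P) (‖a‖ * M) := by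
  obtain ⟨γ, N, h1, h2, h3⟩ := h
  refine ⟨fun m k => a * γ m k, N, fun m k hmk => by simp only [h1 m k hmk, mul_zero],
    fun n => by rw [coeff_C_mul, h2, mul_sum], fun N' x y hx hy => ?_⟩
  simp only [mul_assoc a, ← mul_sum, norm_mul]
  exact mul_le_mul_of_nonneg_left (h3 N' x y hx hy) (norm_nonneg _)

theorem rep_two : RepI 2 2 := by
  refine ⟨fun m k => if m = 0 then (if k = 0 then 2 else 0) else 0, fun n => ?_,
    fun N x y hx hy => ?_⟩
  · rw [← map_ofNat (PowerSeries.C (R := ℂ)) 2, PowerSeries.coeff_C]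
    simp
  · rcases Nat.eq_zero_or_pos N with rfl | hN
    · simp
    · have h0 : 0 ∈ range N := mem_range.2 hN
      rw [sum_eq_single_of_mem 0 h0 fun b _ hb => by simp [hb],
        sum_eq_single_of_mem 0 h0 fun b _ hb => by simp [hb]]
      simp only [if_true, norm_mul, Complex.norm_ofNat]
      nlinarith [hx 0, hy 0, norm_nonneg (x 0), norm_nonneg (y 0),
        mul_le_one₀ (hx 0) (norm_nonneg _) (hy 0)]

theorem hasSum (P : ℂ[X]) (z : ℂ) :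
    HasSum (fun n : ℕ => PowerSeries.coeff n (P : PowerSeries ℂ) * z ^ n) (P.eval z) := by
  rw [eval_eq_sum_range]
  simp only [Polynomial.coeff_coe]
  refine hasSum_sum_of_ne_finset_zero fun n hn => ?_
  rw [coeff_eq_zero_of_natDegree_lt (by simpa using hn), zero_mul]

theorem pick (k : ℕ) {c : ℝ} (hc : 0 < c) :
    ∃ J : ℕ, k < J ∧ √((2 * J + 1 : ℕ) : ℝ) / 2 ^ J ≤ c := by
  have h1 := (tendsto_pow_const_div_const_pow_of_one_lt 1 (one_lt_two (α := ℝ))).eventually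
    (gt_mem_nhds (show (0 : ℝ) < c / 3 by positivity))
  obtain ⟨J, a, b⟩ := (h1.and (eventually_gt_atTop k)).exists
  refine ⟨J, b, ?_⟩
  have h2 : (1 : ℝ) ≤ J := by exact_mod_cast (by omega : 1 ≤ J)
  have h3 : √((2 * J + 1 : ℕ) : ℝ) ≤ 3 * J := by
    rw [Real.sqrt_le_left (by positivity)]
    push_cast
    nlinarith
  rw [pow_one, div_lt_iff₀ (by positivity)] at a
  rw [div_le_iff₀ (by positivity)]
  linarith

theorem flip (N : ℕ) (h : ℕ → ℂ) (γ : ℕ → ℕ → ℂ) (g : PowerSeries ℂ) (h0 : ∀ n, N ≤ n → h n = 0)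
    (hγ : ∀ n, PowerSeries.coeff n g = ∑ j ∈ range (n + 1), γ j (n - j)) :
    ∑ n ∈ range N, h n * PowerSeries.coeff n g =
      ∑ p ∈ range N, ∑ q ∈ range N, γ p q * h (p + q) := by
  have e1 : ∑ n ∈ range N, h n * PowerSeries.coeff n g
      = ∑ n ∈ range N, ∑ j ∈ range (n + 1), γ j (n - j) * h (j + (n - j)) := by
    refine sum_congr rfl fun n _ => ?_
    rw [hγ, mul_sum]
    refine sum_congr rfl fun j hj => ?_
    rw [Nat.add_sub_cancel' (Nat.lt_succ_iff.1 (mem_range.1 hj)), mul_comm]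
  rw [e1, sum_range_diag_flip N fun p q => γ p q * h (p + q)]
  refine sum_congr rfl fun p _ => sum_subset (range_mono (Nat.sub_le _ _)) fun q _ hq => ?_
  rw [h0 _ (by rw [mem_range] at hq; omega), mul_zero]

theorem hh_zero {V M N n : ℕ} {F : ℕ → ℕ} (h : ∀ c < M, F c + V * M ≤ N) (hn : N ≤ n) :
    hh V M F n = 0 := sum_eq_zero fun c hc => by
  have := h c (mem_range.1 hc)
  rw [trw, filter_eq_empty_iff.2 fun t _ h2 => by omega, card_empty, Nat.cast_zero, zero_div,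
    mul_zero]

theorem injB (γ : ℕ → ℕ → ℂ) (h : injNorm γ ≠ ∞) (N : ℕ) :
    InjB (range N) (range N) γ (injNorm γ).toReal := by
  intro x y hx hy
  rw [← ENNReal.ofReal_le_iff_le_toReal h, ofReal_norm]
  exact le_iSup_of_le N (le_iSup_of_le x (le_iSup_of_le y (le_iSup_of_le hx
    (le_iSup_of_le hy le_rfl))))

end LOWI

open LOWI in
theorem lowi (hS : S_SYS) (hN : S_NORMH) (hH : S_HLOW) (hA : S_LOWA) (hAn : S_ANA)
    (hP : S_PITT) : S_LOWI := by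
  intro d
  obtain ⟨c, hc⟩ : ∃ c : ℝ, c = 1 / (((d + 1 : ℕ) : ℝ) ^ (d + 1) * 2 ^ (d + 1 + 1) * 2) :=
    ⟨_, rfl⟩
  have hc0 : 0 < c := by
    rw [hc]
    positivity
  obtain ⟨J, hJ, hJc⟩ := pick (d + 1) hc0
  obtain ⟨V, hV⟩ : ∃ V : ℕ, V = 2 * J + 1 := ⟨_, rfl⟩
  rw [← hV] at hJc
  have hV0 : (0 : ℝ) < √(V : ℝ) := Real.sqrt_pos.2 (by exact_mod_cast (by omega : 0 < V))
  refine ⟨c / (256 * (d + 1) * √(V : ℝ)), by positivity, fun m hm => ?_⟩
  obtain ⟨M, e, α, β, hM, hsys⟩ := hS d m hm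
  have hM1 : 1 ≤ M := by
    rcases Nat.eq_zero_or_pos M with rfl | h
    · exact absurd hM.symm (by positivity)
    · exact h
  have hT : ∀ i ∈ range (d + 1), Rep (tst M (fr (V * M) e i)) √(((d + 1) * m ^ 2 ^ d : ℕ) : ℝ) ∧
      ∀ z : ℂ, ‖z‖ ≤ 1 → ‖(tst M (fr (V * M) e i)).eval z‖ ≤ 1 := fun i hi => by
    refine hA M _ _ hM1 (le_trans (card_le_card (t := (range ((d + 1) * m ^ 2 ^ d)).image
      fun t => 8 * (V * M) * 8 ^ t) fun x hx => ?_) (card_image_le.trans (card_range _).le))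
    obtain ⟨a, ha, rfl⟩ := mem_image.1 hx
    exact mem_image.2 ⟨e i a, mem_range.2
      (hsys.1 a (mem_range.1 ha) i (Nat.lt_succ_iff.1 (mem_range.1 hi))), rfl⟩
  obtain ⟨Φ, hΦ⟩ : ∃ Φ : ℂ[X],
    Φ = C (((d + 1 : ℕ) : ℂ)⁻¹) * ∑ i ∈ range (d + 1), tst M (fr (V * M) e i) := ⟨_, rfl⟩
  have hk : (0 : ℝ) < ((d + 1 : ℕ) : ℝ) := by positivity
  have r1 : Rep Φ √(((d + 1) * m ^ 2 ^ d : ℕ) : ℝ) := by
    refine hΦ ▸ (rep_smul _ (Rep.sum _ _ _ fun i hi => (hT i hi).1)).mono (le_of_eq ?_)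
    rw [sum_const, card_range, nsmul_eq_mul, norm_inv, Complex.norm_natCast,
      inv_mul_cancel_left₀ hk.ne']
  have r2 : ∀ z : ℂ, ‖z‖ < 1 → ‖Φ.eval z‖ ≤ 1 := fun z hz => by
    rw [hΦ, eval_mul, eval_C, eval_finsetSum, norm_mul, norm_inv, Complex.norm_natCast,
      inv_mul_le_iff₀ hk]
    refine (norm_sum_le_of_le _ fun i hi => (hT i hi).2 z hz.le).trans (le_of_eq ?_)
    rw [sum_const, card_range, nsmul_eq_mul]
  have e1 : ((2 - Φ : ℂ[X]) : PowerSeries ℂ) = 2 - (Φ : PowerSeries ℂ) := by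
    rw [Polynomial.coe_sub]
    exact congrArg (· - (Φ : PowerSeries ℂ)) (map_ofNat coeToPowerSeries.ringHom 2)
  have r3 : ∀ z : ℂ, ‖z‖ < 1 → ∃ s : ℂ, HasSum
      (fun n : ℕ => PowerSeries.coeff n (2 - (Φ : PowerSeries ℂ)) * z ^ n) s ∧ 1 ≤ ‖s‖ :=
    fun z hz => by
      refine ⟨_, e1 ▸ hasSum (2 - Φ) z, ?_⟩
      have := norm_sub_norm_le (2 : ℂ) (Φ.eval z)
      rw [Complex.norm_ofNat] at this
      rw [eval_sub, eval_ofNat]
      linarith [r2 z hz]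
  obtain ⟨i1, i2⟩ := hAn _ 1 one_pos r3
  rw [inv_one] at i2
  refine ⟨2 - (Φ : PowerSeries ℂ), hP _ _ ?_, fun z hz => ?_, ?_⟩
  · rw [sub_eq_add_neg]
    exact rep_two.add (repI r1).neg
  · obtain ⟨s, h1, h2⟩ := r3 z hz
    rwa [h1.tsum_eq]
  refine le_iInf fun γ => le_iInf fun _ => le_iInf fun hγ => ?_
  rcases eq_or_ne (injNorm γ) ∞ with ht | ht
  · rw [ht]
    exact le_top
  rw [ENNReal.ofReal_le_iff_le_toReal ht]
  obtain ⟨N, hNc⟩ : ∃ N : ℕ, ∀ a < M, FF (V * M) d e a + V * M ≤ N :=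
    ⟨(range M).sup fun a => FF (V * M) d e a + V * M, fun a ha =>
      le_sup (f := fun a => FF (V * M) d e a + V * M) (mem_range.2 ha)⟩
  have l1 := hH V M N (d + 1) J (fr (V * M) e) Φ _ hM1 (by omega) hJ (by omega)
    (fun i a => Dvd.intro _ rfl) hNc hΦ i1 (fun z hz => ⟨_, hasSum Φ z, r2 z hz⟩) i2
  have l2 := hN d M _ V N e α β γ _ hsys hM1 (by omega) (injB γ ht N)
  rw [← flip N _ γ _ (fun n hn => hh_zero hNc hn) hγ] at l2
  have l3 := l1.trans l2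
  have hI : 0 ≤ (injNorm γ).toReal := ENNReal.toReal_nonneg
  generalize (injNorm γ).toReal = I at l3 hI ⊢
  have hM0 : (0 : ℝ) < M := by exact_mod_cast hM1
  have hm0 : (0 : ℝ) < √(m : ℝ) := Real.sqrt_pos.2 (by exact_mod_cast hm)
  have hs0 : (0 : ℝ) < √(M : ℝ) := Real.sqrt_pos.2 hM0
  have e2 : (m : ℝ) ^ 2 ^ d / √m = √(M : ℝ) := by
    rw [div_eq_iff hm0.ne', mul_comm, ← Real.sqrt_mul (Nat.cast_nonneg m), ← Nat.cast_mul, hM,
      Nat.cast_pow, Real.sqrt_sq (by positivity), Nat.cast_pow]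
  have e3 : (M : ℝ) / (((d + 1 : ℕ) : ℝ) ^ (d + 1) * 2 ^ (d + 1 + 1)) = 2 * (M * c) := by
    rw [hc]
    field_simp
  have l4 := mul_le_mul_of_nonneg_left hJc hM0.le
  rw [e3, mul_div_assoc, Real.sqrt_mul (Nat.cast_nonneg V)] at l3
  rw [e2, div_mul_eq_mul_div, div_le_iff₀ (by positivity)]
  refine le_of_mul_le_mul_right ?_ hs0
  have e4 := Real.mul_self_sqrt hM0.le
  calc c * √(M : ℝ) * √(M : ℝ) = M * c := by rw [mul_assoc, e4, mul_comm]
    _ ≤ 256 * (d + 1) * I * (√(V : ℝ) * √(M : ℝ)) := by linarith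
    _ = _ := by ring

end Pool.Agent.MP_fe3998_an.IV
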