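import Pool.Agent.MP_fe3998_an.IV.Spec

/-!
The norm of the test functional.
-/

set_option autoImplicit false

namespace Pool.Agent.MP_fe3998_an.IV

open Finset Pool.Agent.MP_fe3998_an.PR

namespace NORMH

theorem trw_zero {V M F n : ℕ} (h : ¬ (F < n + M ∧ n < F + V * M)) : trw V M F n = 0 := by
  unfold trw
  rw [Finset.filter_eq_empty_iff.2, Finset.card_empty, Nat.cast_zero, zero_div]
  intro t ht h2
  rw [mem_range] at ht
  omega

theorem cell (l : ℕ → ℕ) (l0 : l 0 = 0) (x d : ℕ) : ∃ j ≤ d, l j ≤ x ∧ (j < d → x < l (j + 1)) := by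
  induction d with
  | zero => exact ⟨0, le_rfl, by omega, by omega⟩
  | succ d ih =>
    obtain ⟨j, h1, h2, h3⟩ := ih
    by_cases h : j = d ∧ l (d + 1) ≤ x
    · exact ⟨d + 1, le_rfl, h.2, by omega⟩
    · refine ⟨j, by omega, h2, fun _ => ?_⟩
      rcases h1.eq_or_lt with rfl | k
      · omega
      · exact h3 k

variable {d M W c : ℕ} {e : ℕ → ℕ → ℕ}

theorem lo_mono (he : ∀ i < d, e i c < e (i + 1) c) {i j : ℕ} (h : i ≤ j) (hj : j ≤ d) :
    lo W e i c ≤ lo W e j c := by
  induction j, h using Nat.le_induction with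
  | base => exact le_rfl
  | succ j _ ih =>
    refine (ih (by omega)).trans ?_
    cases j with
    | zero => exact Nat.zero_le _
    | succ j =>
      exact Nat.mul_le_mul_left _ (Nat.pow_le_pow_right (by norm_num) (he j (by omega)).le)

theorem lo_le (he : ∀ i < d, e i c < e (i + 1) c) : 32 * lo W e d c ≤ fr W e d c := by
  cases d with
  | zero => exact Nat.zero_le _
  | succ d =>
    have := Nat.mul_le_mul_left (8 * W)
      (Nat.pow_le_pow_right (by norm_num : 0 < 8) (Nat.succ_le_of_lt (he d (by omega))))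
    rw [lo, fr]
    rw [pow_succ] at this
    linarith

open Classical in
/-- The regions cover the support of the trapezoid exactly once. -/
theorem one (he : ∀ i < d, e i c < e (i + 1) c) (hW : M ≤ W) {p q : ℕ}
    (h4 : FF W d e c < p + q + M) (h5 : p + q < FF W d e c + W) :
    ∑ j ∈ range (d + 1),
      ((if (RA M W d e j c p ∧ (j = d → fr W e d c ≤ 2 * p)) ∧ RB W d e j c q then 1 else 0) +
        if (RB W d e j c p ∧ (j = d → 2 * p < fr W e d c)) ∧ RA M W d e j c q then 1 else 0 : ℂ) =
      1 := by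
  have h1 := lo_le (W := W) he
  have h2 : 8 * W ≤ fr W e d c := Nat.le_mul_of_pos_right _ (by positivity)
  have h3 : fr W e d c ≤ FF W d e c :=
    single_le_sum (f := fun i => fr W e i c) (fun _ _ => Nat.zero_le _) (self_mem_range_succ d)
  obtain ⟨k, k1, k2, k3⟩ := cell (fun j => lo W e j c) rfl (min p q) d
  have m1 : k < d → lo W e (k + 1) c ≤ lo W e d c := fun h => lo_mono he h le_rfl
  rw [sum_eq_single_of_mem k (mem_range_succ_iff.2 k1) fun j hj ne => ?_]
  · unfold RA RB
    split_ifs <;> first | omega | simp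
  · have hj := mem_range_succ_iff.1 hj
    have m2 : j < d → lo W e (j + 1) c ≤ lo W e d c := fun h => lo_mono he h le_rfl
    have m3 : j < k → lo W e (j + 1) c ≤ lo W e k c := fun h => lo_mono he h k1
    have m4 : k < j → lo W e (k + 1) c ≤ lo W e j c := fun h => lo_mono he h hj
    unfold RA RB
    rw [if_neg (by omega), if_neg (by omega), add_zero]

end NORMH

theorem normh (hR : S_REGW) (hC : S_CNTH) : S_NORMH := by
  classical
  intro d M w V N e α β γ I hS hM hV hI
  have hW : M ≤ V * M := Nat.le_mul_of_pos_left _ hV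
  have b : ∀ j ≤ d, 128 * I * √(V * α j * β j) ≤ 128 * I * √(V * M) := fun j hj =>
    mul_le_mul_of_nonneg_left (Real.sqrt_le_sqrt (by
      rw [mul_assoc]
      exact_mod_cast Nat.mul_le_mul_left V (hS.2.2.1 j hj))) (mul_nonneg (by norm_num) hI.nonneg)
  have r := fun j (hj : j ∈ range (d + 1)) =>
    have c := hC d M w (V * M) e α β hS hM hW j (mem_range_succ_iff.1 hj)
    norm_add_le_of_le
      ((hR V M N _ _ (FF (V * M) d e)
        (fun c p => RA M (V * M) d e j c p ∧ (j = d → fr (V * M) e d c ≤ 2 * p))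
        (RB (V * M) d e j) γ I hM hI
        (fun p => (card_le_card fun x hx => by
          simp only [mem_filter] at hx ⊢
          exact ⟨hx.1, hx.2.1⟩).trans (c.1 p)) c.2).trans (b j (mem_range_succ_iff.1 hj)))
      ((hR V M N _ _ (FF (V * M) d e)
        (fun c p => RB (V * M) d e j c p ∧ (j = d → 2 * p < fr (V * M) e d c))
        (RA M (V * M) d e j) γ I hM hI
        (fun p => (card_le_card fun x hx => by
          simp only [mem_filter] at hx ⊢
          exact ⟨hx.1, hx.2.1⟩).trans (c.2 p)) c.1).trans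
        ((mul_right_comm (V : ℝ) _ _ ▸ b j (mem_range_succ_iff.1 hj) :)))
  refine le_trans (le_of_eq (congrArg _ ?_)) ((norm_sum_le_of_le _ r).trans (le_of_eq ?_))
  · simp only [← Finset.sum_add_distrib, ← mul_add, ← add_mul]
    rw [sum_comm (s := range (d + 1))]
    refine sum_congr rfl fun p _ => ?_
    rw [sum_comm (s := range (d + 1))]
    refine sum_congr rfl fun q _ => ?_
    rw [← mul_sum, sum_comm (s := range (d + 1))]
    refine congrArg _ (sum_congr rfl fun c hc => ?_)
    rw [← sum_mul]
    by_cases ht : FF (V * M) d e c < p + q + M ∧ p + q < FF (V * M) d e c + V * M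
    · refine (one_mul _).symm.trans (congrArg (· * _) ?_)
      refine (NORMH.one (hS.2.1 c (mem_range.1 hc)) hW ht.1 ht.2).symm.trans ?_
      exact sum_congr rfl fun j _ => congrArg₂ _ (@if_congr _ _ _ _ (_) _ _ _ _ Iff.rfl rfl rfl)
        (@if_congr _ _ _ _ (_) _ _ _ _ Iff.rfl rfl rfl)
    · rw [NORMH.trw_zero ht, mul_zero, mul_zero]
  · rw [sum_const, card_range, nsmul_eq_mul]
    push_cast
    ring

end Pool.Agent.MP_fe3998_an.IV
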