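import Pool.Agent.MP_fe3998_an.IV.Spec
import Pool.Agent.MP_fe3998_an.PR.PAIR

/-! The pairing of a power of a sum of test polynomials with the test functional. -/

set_option autoImplicit false

namespace Pool.Agent.MP_fe3998_an.IV

open Finset Polynomial Pool.Agent.MP_fe3998_an.PR

namespace PAIRG

theorem trw_one {V M F n : ℕ} (hM : 1 ≤ M) (h1 : F ≤ n) (h2 : n + M ≤ F + V * M) :
    trw V M F n = 1 := by
  unfold trw
  rw [filter_true_of_mem fun t ht => by have := mem_range.1 ht; omega, card_range]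
  exact div_self (Nat.cast_ne_zero.2 (by omega))

theorem trw_zero {V M F n : ℕ} (h : n + M ≤ F ∨ F + V * M ≤ n) : trw V M F n = 0 := by
  unfold trw
  rw [filter_false_of_mem fun t ht => by have := mem_range.1 ht; omega]
  simp

theorem supp {F n : ℕ} {Q : ℂ[X]} (h : (X ^ F * Q).coeff n ≠ 0) :
    F ≤ n ∧ n ≤ F + Q.natDegree := by
  rw [coeff_X_pow_mul'] at h
  split_ifs at h with c
  · have := le_natDegree_of_ne_zero h
    omega
  · exact absurd rfl h

theorem key {V M N F F' : ℕ} (hM : 1 ≤ M) (z : ℂ) {Q : ℂ[X]} (hQ : Q.natDegree + M ≤ V * M)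
    (h1 : 8 * (V * M) ∣ F) (h2 : 8 * (V * M) ∣ F') (hN : F + V * M ≤ N) :
    ∑ n ∈ range N, z ^ n * trw V M F n * (X ^ F' * Q).coeff n =
      if F' = F then z ^ F * Q.eval z else 0 := by
  split_ifs with c
  · subst c
    have d : (X ^ F' * Q).natDegree < N := by
      refine natDegree_mul_le.trans_lt ?_
      rw [natDegree_X_pow]
      omega
    have e := eval_eq_sum_range' d z
    rw [eval_mul, eval_pow, eval_X] at e
    rw [e]
    refine sum_congr rfl fun n _ => ?_
    by_cases h : (X ^ F' * Q).coeff n = 0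
    · simp only [h, mul_zero, zero_mul]
    · have s := supp h
      rw [trw_one hM s.1 (by omega)]
      ring
  · refine sum_eq_zero fun n _ => ?_
    by_cases h : (X ^ F' * Q).coeff n = 0
    · simp only [h, mul_zero]
    · have s := supp h
      rw [trw_zero, mul_zero, zero_mul]
      rcases lt_or_gt_of_ne c with l | l
      · have := Nat.le_of_dvd (Nat.sub_pos_of_lt l) (Nat.dvd_sub h1 h2)
        omega
      · have := Nat.le_of_dvd (Nat.sub_pos_of_lt l) (Nat.dvd_sub h2 h1)
        omega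

theorem pow_eq (M k j : ℕ) (f : ℕ → ℕ → ℕ) : (∑ i ∈ range k, tst M (f i)) ^ j =
    ∑ σ ∈ Fintype.piFinset fun _ : Fin j => range k ×ˢ range M,
      X ^ (∑ a, f (σ a).1 (σ a).2) * ∏ a, bump M (σ a).2 := by
  have e : ∑ i ∈ range k, tst M (f i) =
      ∑ s ∈ range k ×ˢ range M, X ^ f s.1 s.2 * bump M s.2 := by
    rw [sum_product]
    rfl
  rw [e, sum_pow']
  refine sum_congr rfl fun σ _ => ?_
  rw [prod_mul_distrib, prod_pow_eq_pow_sum]

end PAIRG

open PAIRG in
theorem pairg : S_PAIRG := by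
  intro V M N k j f hM hV hf hN
  have t : ∀ c ∈ range M, ∀ σ ∈ Fintype.piFinset fun _ : Fin j => range k ×ˢ range M,
      ∑ n ∈ range N, om M ^ (c * n) * trw V M (∑ i ∈ range k, f i c) n *
        (X ^ (∑ a, f (σ a).1 (σ a).2) * ∏ a, bump M (σ a).2).coeff n =
      if ∑ a, f (σ a).1 (σ a).2 = ∑ i ∈ range k, f i c ∧ ∀ a, (σ a).2 = c then 1 else 0 := by
    intro c hc σ hσ
    have hc' := mem_range.1 hc
    have d : (∏ a, bump M (σ a).2).natDegree + M ≤ V * M := by
      have d1 : (∏ a, bump M (σ a).2).natDegree ≤ j * (2 * M) :=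
        (natDegree_prod_le _ _).trans
          ((sum_le_card_nsmul _ _ _ fun a _ => PAIR.deg_bump M _).trans_eq (by simp))
      have d2 := Nat.mul_le_mul_right M (Nat.succ_le_of_lt hV)
      have d3 : (2 * j).succ * M = j * (2 * M) + M := by
        rw [Nat.succ_mul]
        ring
      omega
    have dv : 8 * (V * M) ∣ ∑ i ∈ range k, f i c := dvd_sum fun i _ => hf i c
    simp only [pow_mul]
    rw [key hM _ d dv (dvd_sum fun a _ => hf _ _) (hN c hc'), pow_right_comm,
      ((PAIR.prim hM).pow_eq_one_iff_dvd _).2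
        (((Dvd.intro_left V rfl).trans (Dvd.intro_left 8 rfl)).trans dv), one_pow, one_mul,
      eval_prod, prod_congr rfl fun a _ => PAIR.eval_bump hM hc'
        (mem_range.1 (mem_product.1 (Fintype.mem_piFinset.1 hσ a)).2), prod_ite_zero, ite_and]
    simp
  refine ⟨∑ c ∈ range M, ((Fintype.piFinset fun _ : Fin j => range k ×ˢ range M).filter fun σ =>
    ∑ a, f (σ a).1 (σ a).2 = ∑ i ∈ range k, f i c ∧ ∀ a, (σ a).2 = c).card, ?_, ?_⟩
  · simp only [hh, sum_mul]
    rw [sum_comm, Nat.cast_sum]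
    refine sum_congr rfl fun c hc => ?_
    rw [PAIRG.pow_eq]
    simp only [finsetSum_coeff, mul_sum]
    rw [sum_comm, sum_congr rfl (t c hc), sum_boole]
  · rintro rfl
    refine le_trans (le_of_eq (by simp)) (card_nsmul_le_sum _ _ 1 fun c hc => card_pos.2
      ⟨fun a => (a.1, c), mem_filter.2 ⟨Fintype.mem_piFinset.2 fun a =>
        mem_product.2 ⟨mem_range.2 a.2, hc⟩, ?_, fun _ => rfl⟩⟩)
    exact Fin.sum_univ_eq_sum_range (fun i => f i c) j

end Pool.Agent.MP_fe3998_an.IV
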