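import Pool.Agent.MP_fe3998_an.IV.Spec
import Pool.Agent.MP_fe3998_an.PR.REG

/-! Row REGW: a bound for the pairing with wide trapezoids on a region. -/

set_option autoImplicit false

namespace Pool.Agent.MP_fe3998_an.IV

open Finset Polynomial Pool.Agent.MP_fe3998_an.PR

namespace REGW

theorem cnt (W M N n₀ p q : ℕ) (hq : q < N) :
    ((range (N + M)).filter fun s => (n₀ ≤ p + s ∧ p + s < n₀ + W) ∧
      q ≤ 0 + s ∧ 0 + s < q + M).card =
    ((range M).filter fun t => n₀ ≤ p + q + t ∧ p + q + t < n₀ + W).card := by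
  refine card_nbij' (fun s => s - q) (fun t => q + t) (fun s hs => ?_) (fun t ht => ?_)
    (fun s hs => ?_) fun t _ => by simp
  all_goals simp only [coe_filter, mem_range, Set.mem_ofPred_eq] at *
  all_goals omega

end REGW

open Classical in
theorem regw (hG : S_GT) : S_REGW := by
  intro V M N α β F A B γ I hM hI hA hB
  have h := hG ℕ ℕ (ℕ × ℕ) (range N) (range N) (range M ×ˢ range (N + M)) γ I
    √((α : ℝ) * (V * M : ℕ)) √((β : ℝ) * M)
    (fun p e => if A e.1 p ∧ F e.1 ≤ p + e.2 ∧ p + e.2 < F e.1 + V * M then om M ^ (e.1 * p) else 0)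
    (fun q e => if B e.1 q ∧ q ≤ 0 + e.2 ∧ 0 + e.2 < q + M then om M ^ (e.1 * q) else 0) hI
    (Real.sqrt_nonneg _) (Real.sqrt_nonneg _)
    (fun p _ => by convert REG.sq_le M (N + M) α (V * M) (fun c => A c p) F p p (hA p))
    (fun q _ => by convert REG.sq_le M (N + M) β M (fun c => B c q) (fun _ => q) 0 q (hB q))
  have M0 : (0 : ℝ) < M := by exact_mod_cast hM
  have M1 : (M : ℂ) ≠ 0 := by exact_mod_cast M0.ne'
  have e : ∀ p, ∀ q ∈ range N, ∑ e ∈ range M ×ˢ range (N + M),
      (if A e.1 p ∧ F e.1 ≤ p + e.2 ∧ p + e.2 < F e.1 + V * M then om M ^ (e.1 * p) else 0) *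
      (if B e.1 q ∧ q ≤ 0 + e.2 ∧ 0 + e.2 < q + M then om M ^ (e.1 * q) else 0) =
      M * ∑ c ∈ range M, (if A c p ∧ B c q then 1 else 0) *
        (om M ^ (c * (p + q)) * trw V M (F c) (p + q)) := by
    intro p q hq
    rw [sum_product, mul_sum]
    refine sum_congr rfl fun c _ => ?_
    by_cases h1 : A c p
    swap
    · simp [h1]
    by_cases h2 : B c q
    swap
    · simp [h2]
    rw [trw, ← REGW.cnt (V * M) M N (F c) p q (mem_range.1 hq), ← sum_boole]
    simp only [h1, h2, true_and, if_true, one_mul]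
    rw [mul_left_comm, mul_div_cancel₀ _ M1, mul_sum]
    refine sum_congr rfl fun s _ => ?_
    rw [ite_zero_mul_ite_zero, mul_add, pow_add, mul_boole]
  rw [sum_congr rfl fun p _ => sum_congr rfl fun q hq => by rw [e p q hq, mul_left_comm]] at h
  simp only [← mul_sum] at h
  rw [norm_mul, Complex.norm_natCast, mul_assoc, ← Real.sqrt_mul (by positivity)] at h
  have e2 : √((α : ℝ) * (V * M : ℕ) * (β * M)) = √(V * α * β) * M := by
    rw [show (α : ℝ) * (V * M : ℕ) * (β * M) = V * α * β * (M * M) by push_cast; ring,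
      Real.sqrt_mul (by positivity), Real.sqrt_mul_self M0.le]
  rw [e2, ← mul_assoc, mul_comm] at h
  exact le_of_mul_le_mul_right h M0

end Pool.Agent.MP_fe3998_an.IV
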