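import Pool.Agent.MP_fe3998_an.IV.Spec
import Pool.Agent.MP_fe3998_an.PR.REG

/-! The test functional is bounded on bounded functions. -/

set_option autoImplicit false

namespace Pool.Agent.MP_fe3998_an.IV

open Finset Pool.Agent.MP_fe3998_an.PR

namespace SUPH

theorem iden (ω : ℂ) (hω : ω ≠ 0) (a : ℕ → ℂ) (n₀ R D N : ℕ) (hN : R ≤ N) :
    ∑ n ∈ range N, ω ^ n *
        (((range (D + 1)).filter fun t => n₀ ≤ n + t ∧ n + t < R).card : ℂ) * a n =
      ∑ j ∈ range R, ∑ l ∈ range (D + 1), (if D ≤ j + l then a (j + l - D) else 0) *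
        (if n₀ ≤ j then ω ^ j else 0) * (ω ^ l * (ω ^ D)⁻¹) := by
  have e : ∀ n, ω ^ n * (((range (D + 1)).filter fun t => n₀ ≤ n + t ∧ n + t < R).card : ℂ) * a n =
      ∑ t ∈ range (D + 1), if n₀ ≤ n + t ∧ n + t < R then ω ^ n * a n else 0 := fun n => by
    rw [← sum_filter, sum_const, nsmul_eq_mul]
    ring
  simp only [e]
  rw [sum_comm, sum_comm (s := range R), ← sum_range_reflect]
  refine sum_congr rfl fun l hl => ?_
  have hl' := mem_range.1 hl
  have e2 : ∀ j, (if D ≤ j + l then a (j + l - D) else 0) * (if n₀ ≤ j then ω ^ j else 0) *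
      (ω ^ l * (ω ^ D)⁻¹) =
      if D ≤ j + l ∧ n₀ ≤ j then ω ^ (j + l - D) * a (j + l - D) else 0 := fun j => by
    by_cases h1 : D ≤ j + l
    · by_cases h2 : n₀ ≤ j
      · rw [if_pos h1, if_pos h2, if_pos ⟨h1, h2⟩, pow_sub₀ ω hω h1, pow_add]
        ring
      · simp [h2]
    · simp [h1]
  simp only [e2]
  rw [← sum_filter, ← sum_filter]
  refine sum_nbij' (fun n => n + (D - l)) (fun j => j + l - D) (fun n hn => ?_) (fun j hj => ?_)
    (fun n _ => ?_) (fun j hj => ?_) fun n _ => ?_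
  · simp only [mem_filter, mem_range] at hn ⊢
    omega
  · simp only [mem_filter, mem_range] at hj ⊢
    omega
  · omega
  · simp only [mem_filter, mem_range] at hj
    omega
  · rw [show n + (D - l) + l - D = n by omega]

theorem one (ω : ℂ) (hω : ‖ω‖ = 1) {g : PowerSeries ℂ} {b : ℝ} (h : HB g b) (n₀ W D N : ℕ)
    (hN : n₀ + W ≤ N) :
    ‖∑ n ∈ range N, ω ^ n * (((range (D + 1)).filter fun t =>
      n₀ ≤ n + t ∧ n + t < n₀ + W).card : ℂ) * PowerSeries.coeff n g‖ ≤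
      b * √W * √((D + 1 : ℕ) : ℝ) := by
  rw [iden ω (norm_ne_zero_iff.1 (by rw [hω]; exact one_ne_zero))
    (fun n => PowerSeries.coeff n g) n₀ (n₀ + W) D N hN]
  refine (h (n₀ + W) (D + 1) D _ _).trans (le_of_eq ?_)
  have e1 : ∑ j ∈ range (n₀ + W), ‖if n₀ ≤ j then ω ^ j else 0‖ ^ 2 = W := by
    rw [sum_range_add, sum_eq_zero fun j hj => by simp [not_le.2 (mem_range.1 hj)]]
    simp [hω]
  have e2 : ∑ l ∈ range (D + 1), ‖ω ^ l * (ω ^ D)⁻¹‖ ^ 2 = ((D + 1 : ℕ) : ℝ) := by simp [hω]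
  rw [e1, e2]

end SUPH

theorem suph : S_SUPH := by
  intro V M N F g b hM h hF
  obtain ⟨D, rfl⟩ : ∃ D, M = D + 1 := ⟨M - 1, by omega⟩
  have hM0 : (0 : ℝ) < ((D + 1 : ℕ) : ℝ) := by exact_mod_cast hM
  simp only [hh, sum_mul]
  rw [sum_comm]
  refine (norm_sum_le _ _).trans ((sum_le_card_nsmul _ _ (√V * b) fun c hc => ?_).trans
    (le_of_eq (by rw [card_range, nsmul_eq_mul, mul_assoc])))
  have h1 := SUPH.one (om (D + 1) ^ c) (REG.norm_om _ _) h (F c) (V * (D + 1)) D N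
    (hF c (mem_range.1 hc))
  have e : ∑ n ∈ range N, om (D + 1) ^ (c * n) * trw V (D + 1) (F c) n * PowerSeries.coeff n g =
      (∑ n ∈ range N, (om (D + 1) ^ c) ^ n * (((range (D + 1)).filter fun t =>
        F c ≤ n + t ∧ n + t < F c + V * (D + 1)).card : ℂ) * PowerSeries.coeff n g) /
          ((D + 1 : ℕ) : ℂ) := by
    rw [sum_div]
    refine sum_congr rfl fun n _ => ?_
    rw [trw, pow_mul]
    ring
  rw [e, norm_div, Complex.norm_natCast, div_le_iff₀ hM0]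
  refine h1.trans (le_of_eq ?_)
  rw [Nat.cast_mul, Real.sqrt_mul (Nat.cast_nonneg V), mul_assoc, mul_assoc,
    Real.mul_self_sqrt hM0.le]
  ring

end Pool.Agent.MP_fe3998_an.IV
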