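import Pool.Agent.MP_fe3998_an.IV.Spec
import Pool.Agent.MP_fe3998_an.PR.NS

/-! A symmetric factorization of a series with a bounded representation. -/

set_option autoImplicit false

namespace Pool.Agent.MP_fe3998_an.IV

open Finset Pool.Agent.MP_fe3998_an.PR

theorem symi (hF : S_FACI) : S_SYMI := by
  rintro φ A ⟨γ, h1, h2⟩
  obtain ⟨p, hp, hs, h⟩ := hF γ A h2
  have hA : 0 ≤ A := (h2 0).nonneg
  have s : ∀ N, NS.WB N (fun m k => (γ m k + γ k m) / 2) p (256 * A) := fun N => NS.wb_sym (h N)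
  refine ⟨fun m => √(p m), fun m k =>
    (γ m k + γ k m) / 2 / (((√(p m) : ℝ) : ℂ) * ((√(p k) : ℝ) : ℂ)), by positivity, fun N => ?_,
    fun N => NS.opB hp (by positivity) (s N), fun m k => ?_, fun n => ?_⟩
  · rw [NS.sum_sq hp]
    exact hs N
  · simp only [add_comm (γ m k), mul_comm ((√(p m) : ℝ) : ℂ)]
  · have e : ∑ j ∈ range (n + 1), γ (n - j) j = ∑ j ∈ range (n + 1), γ j (n - j) := by
      rw [← sum_range_reflect]
      refine sum_congr rfl fun j hj => ?_
      have := mem_range.1 hj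
      congr 1 <;> omega
    rw [← sum_congr rfl fun j hj =>
      NS.fac (s (n + 1)) (mem_range.1 hj) (Nat.lt_succ_of_le (Nat.sub_le n j)),
      ← sum_div, sum_add_distrib, e, h1, add_self_div_two]

end Pool.Agent.MP_fe3998_an.IV
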