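import Pool.Agent.MP_fe3998_an.IV.Spec

/-! The system of cells with increasing digits. -/

set_option autoImplicit false

namespace Pool.Agent.MP_fe3998_an.IV

open Finset

namespace SYS

theorem dec {l M a b : ℕ} (h1 : a / M / l = b / M / l) (h2 : a / M % l = b / M % l)
    (h3 : a % M = b % M) : a = b := by
  have e : a / M = b / M := by rw [← Nat.div_add_mod (a / M) l, h1, h2, Nat.div_add_mod]
  rw [← Nat.div_add_mod a M, e, h3, Nat.div_add_mod]

theorem cnt1 {l M N T : ℕ} (P Q : ℕ → Prop) [DecidablePred P] [DecidablePred Q] (hl : 0 < l)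
    (hM : 0 < M) (h : ∀ c < N, P c → c / M / l = T ∧ Q (c % M)) :
    ((range N).filter P).card ≤ l * ((range M).filter Q).card := by
  rw [← card_range l, ← card_product]
  refine card_le_card_of_injOn (fun c => (c / M % l, c % M)) (fun c hc => ?_) fun a ha b hb e => ?_
  · obtain ⟨h1, h2⟩ := mem_filter.1 (mem_coe.1 hc)
    exact mem_coe.2 (mem_product.2 ⟨mem_range.2 (Nat.mod_lt _ hl),
      mem_filter.2 ⟨mem_range.2 (Nat.mod_lt _ hM), (h c (mem_range.1 h1) h2).2⟩⟩)
  · obtain ⟨h1, h2⟩ := mem_filter.1 (mem_coe.1 ha)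
    obtain ⟨h3, h4⟩ := mem_filter.1 (mem_coe.1 hb)
    exact dec ((h a (mem_range.1 h1) h2).1.trans (h b (mem_range.1 h3) h4).1.symm)
      (congrArg Prod.fst e) (congrArg Prod.snd e)

theorem cnt0 {l M N T S : ℕ} (P Q : ℕ → Prop) [DecidablePred P] [DecidablePred Q]
    (hM : 0 < M) (h : ∀ c < N, P c → c / M / l = T ∧ c / M % l = S ∧ Q (c % M)) :
    ((range N).filter P).card ≤ ((range M).filter Q).card := by
  refine card_le_card_of_injOn (fun c => c % M) (fun c hc => ?_) fun a ha b hb e => ?_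
  · obtain ⟨h1, h2⟩ := mem_filter.1 (mem_coe.1 hc)
    exact mem_coe.2
      (mem_filter.2 ⟨mem_range.2 (Nat.mod_lt _ hM), (h c (mem_range.1 h1) h2).2.2⟩)
  · obtain ⟨h1, h2⟩ := mem_filter.1 (mem_coe.1 ha)
    obtain ⟨h3, h4⟩ := mem_filter.1 (mem_coe.1 hb)
    have k := h a (mem_range.1 h1) h2
    have k' := h b (mem_range.1 h3) h4
    exact dec (k.1.trans k'.1.symm) (k.2.1.trans k'.2.1.symm) e

/-- The digits of the next system. -/
def nx (l M B : ℕ) (e : ℕ → ℕ → ℕ) : ℕ → ℕ → ℕ
  | 0, c => c / M / l * B + c / M % l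
  | i + 1, c => c / M / l * B + l + e i (c % M)

/-- The bounds of the next system. -/
def sh (l a : ℕ) (α : ℕ → ℕ) : ℕ → ℕ
  | 0 => a
  | j + 1 => l * α j

theorem quo {t B x : ℕ} (h1 : t * B ≤ x) (h2 : x < t * B + B) : t = x / B :=
  (Nat.div_eq_of_lt_le h1 (by rw [add_mul, one_mul]; exact h2)).symm

theorem step {d M w l : ℕ} {e : ℕ → ℕ → ℕ} {α β : ℕ → ℕ} (h : Sys d M w e α β) (hM : 0 < M)
    (hl : 0 < l) :
    Sys (d + 1) (l * l * M) (l * (l + w)) (nx l M (l + w) e) (sh l (α 0) α)
      (sh l (l * l * M) β) := by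
  obtain ⟨h1, h2, h3, h4, h5, h6⟩ := h
  have m : ∀ c, c % M < M := fun c => Nat.mod_lt _ hM
  have s : ∀ c, c / M % l < l := fun c => Nat.mod_lt _ hl
  refine ⟨fun c hc i hi => ?_, fun c _ i hi => ?_, fun j hj => ?_, fun j hj t => ?_, le_rfl,
    fun j hj x => ?_⟩
  · have t : c / M / l + 1 ≤ l :=
      Nat.div_lt_of_lt_mul (Nat.div_lt_of_lt_mul (by rwa [mul_comm] at hc))
    have u := Nat.mul_le_mul_right (l + w) t
    rw [add_mul, one_mul] at u
    rcases i with _ | i
    · have := s c
      simp only [nx]; omega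
    · have := h1 _ (m c) i (by omega)
      simp only [nx]; omega
  · rcases i with _ | i
    · have := s c
      simp only [nx]; omega
    · have := h2 _ (m c) i (by omega)
      simp only [nx]; omega
  · rcases j with _ | j
    · have a : α 0 * M ≤ 1 * M := by
        rw [one_mul]; exact (Nat.mul_le_mul_left _ h5).trans (h3 0 d.zero_le)
      exact (Nat.mul_le_mul_right _ (Nat.le_of_mul_le_mul_right a hM)).trans (one_mul _).le
    · simp only [sh]
      rw [mul_mul_mul_comm]
      exact Nat.mul_le_mul_left _ (h3 j (by omega))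
  · rcases j with _ | j
    · refine le_trans (cnt0 (l := l) (T := t 0 / (l + w)) (S := t 0 - t 0 / (l + w) * (l + w))
        _ _ hM fun c _ k => ?_) (h4 0 d.zero_le fun i => t (i + 1) - t 0 / (l + w) * (l + w) - l)
      have a := k 0 le_rfl (by omega)
      have b := s c
      simp only [nx] at a
      have q : c / M / l = t 0 / (l + w) := quo (by omega) (by omega)
      refine ⟨q, by rw [← q]; omega, fun i _ hi => ?_⟩
      have := k (i + 1) (by omega) (by omega)
      simp only [nx] at this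
      rw [← q]; omega
    · refine le_trans (cnt1 (T := t (j + 1) / (l + w)) _ _ hl hM fun c _ k => ?_)
        (Nat.mul_le_mul_left l
          (h4 j (by omega) fun i => t (i + 1) - t (j + 1) / (l + w) * (l + w) - l))
      have a := k (j + 1) le_rfl hj
      have b := h1 _ (m c) j (by omega)
      simp only [nx] at a
      have q : c / M / l = t (j + 1) / (l + w) := quo (by omega) (by omega)
      refine ⟨q, fun i hi hi' => ?_⟩
      have := k (i + 1) (by omega) (by omega)
      simp only [nx] at this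
      rw [← q]; omega
  · rcases j with _ | j
    · refine le_trans (cnt1 (T := x / (l + w)) _ (fun _ => True) hl hM fun c _ k => ⟨?_, trivial⟩)
        (Nat.mul_le_mul_left l (((card_filter_le _ _).trans (card_range M).le).trans h5))
      have b := h1 _ (m c) 0 d.zero_le
      simp only [nx] at k
      exact quo (by omega) (by omega)
    · refine le_trans (cnt1 (T := x / (l + w)) _ _ hl hM fun c _ k => ?_)
        (Nat.mul_le_mul_left l (h6 j (by omega) (x - x / (l + w) * (l + w) - l)))
      have b := h1 _ (m c) (j + 1) (by omega)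
      simp only [nx] at k
      have q : c / M / l = x / (l + w) := quo (by omega) (by omega)
      refine ⟨q, ?_⟩
      rw [← q]; omega

end SYS

theorem sys : S_SYS := by
  intro d m hm
  induction d with
  | zero =>
    refine ⟨m, fun _ c => c, fun _ => 1, fun _ => m, by ring, fun c hc _ _ => by simpa using hc,
      fun _ _ _ hi => absurd hi (Nat.not_lt_zero _), fun _ _ => (one_mul m).le, fun j hj t => ?_,
      le_rfl, fun _ hj => absurd hj (Nat.not_lt_zero _)⟩
    exact card_le_one.2 fun a ha b hb =>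
      ((mem_filter.1 ha).2 0 hj le_rfl).trans ((mem_filter.1 hb).2 0 hj le_rfl).symm
  | succ d ih =>
    obtain ⟨M, e, α, β, h1, h2⟩ := ih
    have l0 : 0 < m ^ 2 ^ d := Nat.pow_pos hm
    have M0 : 0 < M := Nat.pos_of_mul_pos_left (h1 ▸ Nat.pow_pos l0)
    have e1 : m ^ 2 ^ (d + 1) = m ^ 2 ^ d * m ^ 2 ^ d := by rw [pow_succ, pow_mul, sq]
    have k := SYS.step h2 M0 l0
    rw [show m ^ 2 ^ d * (m ^ 2 ^ d + (d + 1) * m ^ 2 ^ d) = (d + 1 + 1) * m ^ 2 ^ (d + 1) by
      rw [e1]; ring] at k
    refine ⟨_, _, _, _, ?_, k⟩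
    rw [e1, mul_left_comm, h1]; ring

end Pool.Agent.MP_fe3998_an.IV
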