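import Pool.Agent.MP_fe3998_an.PR.Spec

/-!
Norm control of inverses in the space of the problem: definitions and the steps of the proof.
-/

set_option autoImplicit false

namespace Pool.Agent.MP_fe3998_an.IV

open Finset Polynomial Pool.Agent.MP_fe3998_an.PR Filter Topology
open scoped ENNReal

/-- `φ` has a representation whose finite sections have injective norm at most `M`. -/
def RepI (φ : PowerSeries ℂ) (M : ℝ) : Prop :=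
  ∃ γ : ℕ → ℕ → ℂ, (∀ n, PowerSeries.coeff n φ = ∑ j ∈ range (n + 1), γ j (n - j)) ∧
    ∀ N, InjB (range N) (range N) γ M

/-- The Hankel matrices of all shifts of `g` have operator norm at most `b`. -/
def HB (g : PowerSeries ℂ) (b : ℝ) : Prop := ∀ R S D : ℕ,
  OpB (range R) (range S)
    (fun j l => if D ≤ j + l then PowerSeries.coeff (j + l - D) g else 0) b

/-- The series `g` converges on the open disc with sum of modulus at most `b`. -/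
def DB (g : PowerSeries ℂ) (b : ℝ) : Prop := ∀ z : ℂ, ‖z‖ < 1 →
  ∃ s : ℂ, HasSum (fun n : ℕ => PowerSeries.coeff n g * z ^ n) s ∧ ‖s‖ ≤ b

/-- The radius of scale `a`. -/
noncomputable def rr (a : ℕ) : ℝ := 1 - 1 / (2 * 4 ^ a)

/-- The dilation of scale `a`. -/
noncomputable def dil (a : ℕ) (g : PowerSeries ℂ) : PowerSeries ℂ :=
  PowerSeries.rescale ((rr a : ℝ) : ℂ) g

/-- The weight of scale `a`. -/
noncomputable def eta (a m : ℕ) : ℝ := 2 ^ a / (2 ^ a + √(m : ℝ))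

/-- A symmetric factorization of `φ`. -/
def Fac (φ : PowerSeries ℂ) (w : ℕ → ℝ) (u : ℕ → ℕ → ℂ) (K : ℝ) : Prop :=
  0 ≤ K ∧ (∀ N, ∑ m ∈ range N, w m ^ 2 ≤ 1) ∧ (∀ N, OpB (range N) (range N) u K) ∧
    (∀ m k, u m k = u k m) ∧
    ∀ n, PowerSeries.coeff n φ =
      ∑ j ∈ range (n + 1), (w j : ℂ) * u j (n - j) * (w (n - j) : ℂ)

def S_FACI : Prop := ∀ (γ : ℕ → ℕ → ℂ) (M : ℝ), (∀ N, InjB (range N) (range N) γ M) →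
  ∃ p : ℕ → ℝ, (∀ m, 0 ≤ p m) ∧ (∀ N, ∑ m ∈ range N, p m ≤ 1) ∧ ∀ (N : ℕ) (x y : ℕ → ℂ),
    ‖∑ m ∈ range N, ∑ k ∈ range N, γ m k * x m * y k‖ ≤
      256 * M * √(∑ m ∈ range N, p m * ‖x m‖ ^ 2) * √(∑ k ∈ range N, p k * ‖y k‖ ^ 2)

def S_PITT : Prop := ∀ (φ : PowerSeries ℂ) (M : ℝ), RepI φ M → xNorm φ ≤ ENNReal.ofReal M

def S_SYMI : Prop := ∀ (φ : PowerSeries ℂ) (A : ℝ), RepI φ A →
  ∃ (w : ℕ → ℝ) (u : ℕ → ℕ → ℂ), Fac φ w u (256 * A)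

def S_LIMI : Prop := ∀ (φ : ℕ → PowerSeries ℂ) (ψ : PowerSeries ℂ) (M : ℕ → ℝ) (L : ℝ),
  (∀ i, RepI (φ i) (M i)) → Tendsto M atTop (𝓝 L) →
  (∀ n, Tendsto (fun i => PowerSeries.coeff n (φ i)) atTop (𝓝 (PowerSeries.coeff n ψ))) →
  RepI ψ L

def S_HBS : Prop := ∀ (g : PowerSeries ℂ) (b : ℝ), DB g b → HB g b

def S_ANA : Prop := ∀ (φ : PowerSeries ℂ) (δ : ℝ), 0 < δ →
  (∀ z : ℂ, ‖z‖ < 1 →
    ∃ s : ℂ, HasSum (fun n : ℕ => PowerSeries.coeff n φ * z ^ n) s ∧ δ ≤ ‖s‖) →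
  φ * φ⁻¹ = 1 ∧ DB φ⁻¹ δ⁻¹

def S_DBM : Prop := ∀ (g h : PowerSeries ℂ) (a b : ℝ), DB g a → DB h b → DB (g * h) (a * b)

def S_BAND : Prop := ∀ (g : PowerSeries ℂ) (b : ℝ) (a : ℕ), HB g b →
  RepI (dil (a + 1) g - dil a g) (2 * b) ∧ RepI (dil a g) (2 * 4 ^ a * b)

def S_FAR1 : Prop := ∀ (L a : ℕ) (v c : ℕ → ℝ) (u : ℕ → ℕ → ℂ) (K b V : ℝ)
  (ψ h : PowerSeries ℂ), 1 ≤ L → L ≤ 4 ^ a → (∀ m < L, v m = 0) → 0 ≤ K →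
  (∀ N, OpB (range N) (range N) u K) → (∀ N, ∑ m ∈ range N, v m ^ 2 ≤ V) →
  (∀ N, ∑ k ∈ range N, c k ^ 2 ≤ 4) → HB h b →
  (∀ n, PowerSeries.coeff n ψ =
    ∑ j ∈ range (n + 1), (v j : ℂ) * u j (n - j) * (c (n - j) : ℂ)) →
  RepI (ψ * dil a h) (K * b * √(32 * V * 4 ^ a / L))

def S_KAP : Prop := ∀ a a' m : ℕ, a ≤ a' → 1 ≤ m →
  8 ^ (a - min a (Nat.log 4 m)) * (rr a' ^ m - rr a ^ m) ^ 2 ≤ 32 * (eta a' m - eta a m)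

def S_FARI : Prop := ∀ (a a' : ℕ) (φ h : PowerSeries ℂ) (w : ℕ → ℝ) (u : ℕ → ℕ → ℂ) (K b ε : ℝ),
  a ≤ a' → Fac φ w u K → HB h b →
  (∀ N, ∑ m ∈ range N, w m ^ 2 * (eta a' m - eta a m) ≤ ε) →
  RepI ((dil a' φ - dil a φ) * dil a h) (46 * K * b * √ε)

def S_STEP : Prop := ∀ (u a c : PowerSeries ℂ) (t s M : ℝ), u = a + c * u → RepI a t →
  RepI c s → 65536 * s ≤ 1 / 2 → RepI u M → RepI u (2 * t)

def S_UPI : Prop := ∀ (g : PowerSeries ℂ) (G : ℕ → ℝ) (c : ℝ) (R : ℕ), Monotone G →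
  (∀ a, 0 ≤ G a) → (∀ a, G a ≤ 1) → 1 ≤ R → RepI (dil 0 g) c →
  (∀ a, RepI (dil (a + 1) g - dil a g) c) →
  (∀ a a', a ≤ a' → G a' - G a ≤ 1 / (R : ℝ) → RepI (dil a' g - dil a g) c) →
  RepI g ((2 * R + 2) * c)

def S_FINU : Prop := ∃ C : ℝ, 0 < C ∧ ∀ (φ : PowerSeries ℂ) (A δ : ℝ), 0 < δ → RepI φ A →
  (∀ z : ℂ, ‖z‖ < 1 → δ ≤ ‖∑' n : ℕ, PowerSeries.coeff n φ * z ^ n‖) →
  RepI φ⁻¹ (C * A ^ 2 / δ ^ 3)

open Classical in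
/-- A system of `M` cells with `d + 1` increasing digits below `w`. -/
def Sys (d M w : ℕ) (e : ℕ → ℕ → ℕ) (α β : ℕ → ℕ) : Prop :=
  (∀ c < M, ∀ i ≤ d, e i c < w) ∧ (∀ c < M, ∀ i < d, e i c < e (i + 1) c) ∧
  (∀ j ≤ d, α j * β j ≤ M) ∧
  (∀ j ≤ d, ∀ t : ℕ → ℕ,
    ((range M).filter fun c => ∀ i, j ≤ i → i ≤ d → e i c = t i).card ≤ α j) ∧
  M ≤ β 0 ∧
  ∀ j < d, ∀ x : ℕ, ((range M).filter fun c => e j c ≤ x ∧ x ≤ e (j + 1) c).card ≤ β (j + 1)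

def S_SYS : Prop := ∀ d m : ℕ, 1 ≤ m → ∃ (M : ℕ) (e : ℕ → ℕ → ℕ) (α β : ℕ → ℕ),
  m * M = (m ^ 2 ^ d) ^ 2 ∧ Sys d M ((d + 1) * m ^ 2 ^ d) e α β

def S_DIG : Prop := ∀ (j d : ℕ) (e e' : ℕ → ℕ) (x : ℝ), j ≤ d →
  (∀ i < d, e i < e (i + 1)) → (∀ i < d, e' i < e' (i + 1)) →
  |x - ∑ i ∈ Icc j d, (8 : ℝ) ^ e i| < 3 / 8 * 8 ^ e j →
  |x - ∑ i ∈ Icc j d, (8 : ℝ) ^ e' i| < 3 / 8 * 8 ^ e' j →
  ∀ i, j ≤ i → i ≤ d → e i = e' i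

/-- The frequencies. -/
def fr (W : ℕ) (e : ℕ → ℕ → ℕ) (i c : ℕ) : ℕ := 8 * W * 8 ^ e i c

/-- The total frequency of a cell. -/
def FF (W d : ℕ) (e : ℕ → ℕ → ℕ) (c : ℕ) : ℕ := ∑ i ∈ range (d + 1), fr W e i c

/-- The thresholds. -/
def lo (W : ℕ) (e : ℕ → ℕ → ℕ) : ℕ → ℕ → ℕ
  | 0, _ => 0
  | j + 1, c => 2 * W * 8 ^ e j c

/-- The condition on the larger index in region `j`. -/
def RA (M W d : ℕ) (e : ℕ → ℕ → ℕ) (j c p : ℕ) : Prop :=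
  p < FF W d e c + W ∧ (j < d → FF W d e c < p + M + lo W e (j + 1) c) ∧
    (j = d → fr W e d c ≤ 4 * p)

/-- The condition on the smaller index in region `j`. -/
def RB (W d : ℕ) (e : ℕ → ℕ → ℕ) (j c q : ℕ) : Prop :=
  q < FF W d e c + W ∧ lo W e j c ≤ q ∧ (j < d → q < lo W e (j + 1) c)

open Classical in
def S_CNTH : Prop := ∀ (d M w W : ℕ) (e : ℕ → ℕ → ℕ) (α β : ℕ → ℕ), Sys d M w e α β →
  1 ≤ M → M ≤ W → ∀ j ≤ d,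
    (∀ p, ((range M).filter fun c => RA M W d e j c p).card ≤ α j) ∧
    ∀ q, ((range M).filter fun c => RB W d e j c q).card ≤ β j

/-- The trapezoid of width `V * M` around `n₀`. -/
noncomputable def trw (V M n₀ n : ℕ) : ℂ :=
  (((range M).filter fun t => n₀ ≤ n + t ∧ n + t < n₀ + V * M).card : ℂ) / M

/-- The coefficients of the test functional. -/
noncomputable def hh (V M : ℕ) (F : ℕ → ℕ) (n : ℕ) : ℂ :=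
  ∑ c ∈ range M, om M ^ (c * n) * trw V M (F c) n

open Classical in
def S_REGW : Prop := ∀ (V M N α β : ℕ) (F : ℕ → ℕ) (A B : ℕ → ℕ → Prop) (γ : ℕ → ℕ → ℂ) (I : ℝ),
  1 ≤ M → InjB (range N) (range N) γ I →
  (∀ p, ((range M).filter fun c => A c p).card ≤ α) →
  (∀ q, ((range M).filter fun c => B c q).card ≤ β) →
  ‖∑ p ∈ range N, ∑ q ∈ range N, γ p q * ∑ c ∈ range M,
      (if A c p ∧ B c q then 1 else 0) * (om M ^ (c * (p + q)) * trw V M (F c) (p + q))‖ ≤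
    128 * I * √(V * α * β)

def S_NORMH : Prop := ∀ (d M w V N : ℕ) (e : ℕ → ℕ → ℕ) (α β : ℕ → ℕ) (γ : ℕ → ℕ → ℂ) (I : ℝ),
  Sys d M w e α β → 1 ≤ M → 1 ≤ V → InjB (range N) (range N) γ I →
  ‖∑ p ∈ range N, ∑ q ∈ range N, γ p q * hh V M (FF (V * M) d e) (p + q)‖ ≤
    256 * (d + 1) * I * √(V * M)

def S_SUPH : Prop := ∀ (V M N : ℕ) (F : ℕ → ℕ) (g : PowerSeries ℂ) (b : ℝ), 1 ≤ M → HB g b →
  (∀ c < M, F c + V * M ≤ N) →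
  ‖∑ n ∈ range N, hh V M F n * PowerSeries.coeff n g‖ ≤ M * √V * b

def S_PAIRG : Prop := ∀ (V M N k j : ℕ) (f : ℕ → ℕ → ℕ), 1 ≤ M → 2 * j < V →
  (∀ i c, 8 * (V * M) ∣ f i c) → (∀ c < M, ∑ i ∈ range k, f i c + V * M ≤ N) →
  ∃ r : ℕ, ∑ n ∈ range N, hh V M (fun c => ∑ i ∈ range k, f i c) n *
      ((∑ i ∈ range k, tst M (f i)) ^ j).coeff n = r ∧ (j = k → M ≤ r)

def S_HLOW : Prop := ∀ (V M N k J : ℕ) (f : ℕ → ℕ → ℕ) (Φ : ℂ[X]) (g : PowerSeries ℂ), 1 ≤ M →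
  1 ≤ k → k < J → 2 * J < V → (∀ i c, 8 * (V * M) ∣ f i c) →
  (∀ c < M, ∑ i ∈ range k, f i c + V * M ≤ N) →
  Φ = C ((k : ℂ)⁻¹) * ∑ i ∈ range k, tst M (f i) → (2 - (Φ : PowerSeries ℂ)) * g = 1 →
  DB (Φ : PowerSeries ℂ) 1 → DB g 1 →
  (M : ℝ) / (k ^ k * 2 ^ (k + 1)) - M * √V / 2 ^ J ≤
    ‖∑ n ∈ range N, hh V M (fun c => ∑ i ∈ range k, f i c) n * PowerSeries.coeff n g‖

def S_LOWI : Prop := ∀ d : ℕ, ∃ κ : ℝ, 0 < κ ∧ ∀ m : ℕ, 1 ≤ m → ∃ φ : PowerSeries ℂ,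
  xNorm φ ≤ ENNReal.ofReal (2 + √(((d + 1) * m ^ 2 ^ d : ℕ) : ℝ)) ∧
  (∀ z : ℂ, ‖z‖ < 1 → 1 ≤ ‖∑' n : ℕ, PowerSeries.coeff n φ * z ^ n‖) ∧
  ENNReal.ofReal (κ * ((m : ℝ) ^ 2 ^ d / √m)) ≤ xNorm φ⁻¹

def S_ASY : Prop := ∀ η : ℝ, 0 < η → ∀ A₀ : NNReal, ∃ (A : NNReal) (φ : PowerSeries ℂ),
  A₀ ≤ A ∧ xNorm φ ≤ A ∧ (∀ z : ℂ, ‖z‖ < 1 → 1 ≤ ‖∑' n : ℕ, PowerSeries.coeff n φ * z ^ n‖) ∧
  (A : ℝ≥0∞) ^ (2 - η) ≤ xNorm φ⁻¹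

def S_UPF : Prop := ∃ C : NNReal, ∀ (φ : PowerSeries ℂ) (δ : NNReal), 0 < δ → xNorm φ ≠ ∞ →
  (∀ z : ℂ, ‖z‖ < 1 → (δ : ℝ) ≤ ‖∑' n : ℕ, PowerSeries.coeff n φ * z ^ n‖) →
  xNorm φ⁻¹ * (δ : ℝ≥0∞) ^ 3 ≤ C * xNorm φ ^ 2

theorem RepI.mono {φ : PowerSeries ℂ} {M M' : ℝ} (h : RepI φ M) (hM : M ≤ M') : RepI φ M' := by
  obtain ⟨γ, h2, h3⟩ := h
  exact ⟨γ, h2, fun N x y hx hy => (h3 N x y hx hy).trans hM⟩

theorem RepI.nonneg {φ : PowerSeries ℂ} {M : ℝ} (h : RepI φ M) : 0 ≤ M := by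
  obtain ⟨γ, -, h3⟩ := h
  exact (h3 0).nonneg

theorem RepI.zero : RepI 0 0 :=
  ⟨fun _ _ => 0, fun n => by simp, fun N x y _ _ => by simp⟩

theorem RepI.add {φ ψ : PowerSeries ℂ} {M M' : ℝ} (h : RepI φ M) (h' : RepI ψ M') :
    RepI (φ + ψ) (M + M') := by
  obtain ⟨γ, h2, h3⟩ := h
  obtain ⟨γ', h2', h3'⟩ := h'
  refine ⟨fun m k => γ m k + γ' m k, fun n => ?_, fun N x y hx hy => ?_⟩
  · rw [map_add, h2, h2', ← Finset.sum_add_distrib]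
  · simp only [add_mul, Finset.sum_add_distrib]
    exact (norm_add_le _ _).trans (add_le_add (h3 N x y hx hy) (h3' N x y hx hy))

theorem RepI.neg {φ : PowerSeries ℂ} {M : ℝ} (h : RepI φ M) : RepI (-φ) M := by
  obtain ⟨γ, h2, h3⟩ := h
  refine ⟨fun m k => -γ m k, fun n => ?_, fun N x y hx hy => ?_⟩
  · rw [map_neg, h2, Finset.sum_neg_distrib]
  · simp only [neg_mul, Finset.sum_neg_distrib, norm_neg]
    exact h3 N x y hx hy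

theorem RepI.sum {ι : Type} (s : Finset ι) (φ : ι → PowerSeries ℂ) (M : ι → ℝ)
    (h : ∀ i ∈ s, RepI (φ i) (M i)) : RepI (∑ i ∈ s, φ i) (∑ i ∈ s, M i) := by
  classical
  induction s using Finset.induction_on with
  | empty => simpa using RepI.zero
  | insert i s hi ih =>
    rw [Finset.sum_insert hi, Finset.sum_insert hi]
    exact (h i (mem_insert_self _ _)).add (ih fun j hj => h j (mem_insert_of_mem hj))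

theorem RepI.mul (hC : S_CONV) {φ ψ : PowerSeries ℂ} {M M' : ℝ} (h : RepI φ M)
    (h' : RepI ψ M') : RepI (φ * ψ) (65536 * M * M') := by
  obtain ⟨γ, h2, h3⟩ := h
  obtain ⟨γ', h2', h3'⟩ := h'
  obtain ⟨c1, c2⟩ := hC γ γ' M M' h3 h3'
  refine ⟨conv γ γ', fun n => ?_, c1⟩
  rw [c2, PowerSeries.coeff_mul, Finset.Nat.sum_antidiagonal_eq_sum_range_succ
    (fun i j => PowerSeries.coeff i φ * PowerSeries.coeff j ψ)]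
  exact Finset.sum_congr rfl fun i _ => by rw [h2, h2']

theorem HB.nonneg {g : PowerSeries ℂ} {b : ℝ} (h : HB g b) : 0 ≤ b := by
  have := h 1 1 0 (fun _ => 1) (fun _ => 1)
  simp at this
  exact (norm_nonneg _).trans this

theorem coeff_dil (a n : ℕ) (g : PowerSeries ℂ) :
    PowerSeries.coeff n (dil a g) = ((rr a : ℝ) : ℂ) ^ n * PowerSeries.coeff n g :=
  PowerSeries.coeff_rescale _ _ _

end Pool.Agent.MP_fe3998_an.IV
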