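import Pool.Agent.MP_fe3998_an.IV.Spec
import Pool.Agent.MP_fe3998_an.PR.LIM

/-!
The upper bound for the norm of the inverse, in terms of the norm of the space.
-/

set_option autoImplicit false

namespace Pool.Agent.MP_fe3998_an.IV

open Finset Pool.Agent.MP_fe3998_an.PR Filter Topology
open scoped ENNReal

theorem upf (hF : S_FINU) (hP : S_PITT) : S_UPF := by
  obtain ⟨C, hC, hF⟩ := hF
  refine ⟨C.toNNReal, fun φ δ hδ hφ hz => ?_⟩
  have hδ' : (0 : ℝ) < δ := hδ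
  have h0 : 0 ≤ (xNorm φ).toReal := ENNReal.toReal_nonneg
  have key : ∀ ε : ℝ, 0 < ε →
      xNorm φ⁻¹ ≤ ENNReal.ofReal (C * ((xNorm φ).toReal + ε) ^ 2 / (δ : ℝ) ^ 3) := by
    intro ε hε
    have h1 : xNorm φ < ENNReal.ofReal ((xNorm φ).toReal + ε) :=
      (ENNReal.lt_ofReal_iff_toReal_lt hφ).2 (lt_add_of_pos_right _ hε)
    obtain ⟨γ, -, r, h⟩ := LIM.pick h1
    exact hP _ _ (hF φ _ δ hδ' ⟨γ, r, h⟩ hz)
  have hc : Continuous fun ε : ℝ =>
      ENNReal.ofReal (C * ((xNorm φ).toReal + ε) ^ 2 / (δ : ℝ) ^ 3) :=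
    ENNReal.continuous_ofReal.comp (by fun_prop)
  have ht := (hc.tendsto 0).mono_left (nhdsWithin_le_nhds (s := Set.Ioi 0))
  simp only [add_zero] at ht
  have h2 := ge_of_tendsto ht (eventually_nhdsWithin_of_forall key)
  have h3 : (δ : ℝ≥0∞) ^ 3 = ENNReal.ofReal ((δ : ℝ) ^ 3) := by
    rw [ENNReal.ofReal_pow hδ'.le, ENNReal.ofReal_coe_nnreal]
  have h4 : (C.toNNReal : ℝ≥0∞) * xNorm φ ^ 2 = ENNReal.ofReal (C * (xNorm φ).toReal ^ 2) := by
    rw [ENNReal.ofReal_mul hC.le, ENNReal.ofReal_pow h0, ENNReal.ofReal_toReal hφ]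
    rfl
  rw [h3, h4]
  refine (mul_le_mul_left h2 _).trans (le_of_eq ?_)
  rw [← ENNReal.ofReal_mul (by positivity), div_mul_cancel₀ _ (by positivity)]

end Pool.Agent.MP_fe3998_an.IV
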