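import Pool.Agent.MP_fe3998_an.IV.Spec

/-! Grouping the scales: a bound for all dilations, and the passage to the limit. -/

set_option autoImplicit false

namespace Pool.Agent.MP_fe3998_an.IV

open Finset Polynomial Pool.Agent.MP_fe3998_an.PR Filter Topology

namespace UPI

theorem close {R : ℕ} (hR : 1 ≤ R) {x y : ℝ} (hx : 0 ≤ x)
    (h : ⌊(R : ℝ) * y⌋₊ = ⌊(R : ℝ) * x⌋₊) : y - x ≤ 1 / (R : ℝ) := by
  have h0 : (0 : ℝ) < R := by exact_mod_cast hR
  have h1 := Nat.lt_floor_add_one ((R : ℝ) * y)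
  have h2 := Nat.floor_le (mul_nonneg h0.le hx)
  rw [h] at h1
  rw [le_div_iff₀ h0]
  nlinarith

theorem rr_lim : Tendsto (fun a => ((rr a : ℝ) : ℂ)) atTop (𝓝 1) := by
  have h1 : Tendsto (fun a : ℕ => (1 / 4 : ℝ) ^ a) atTop (𝓝 0) :=
    tendsto_pow_atTop_nhds_zero_of_lt_one (by norm_num) (by norm_num)
  have h2 : Tendsto rr atTop (𝓝 (1 - 1 / 2 * 0)) := by
    refine (tendsto_const_nhds.sub (h1.const_mul (1 / 2))).congr fun a => ?_
    unfold rr
    rw [one_div_pow]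
    field_simp
  have h3 := (Complex.continuous_ofReal.tendsto _).comp h2
  simpa [Function.comp_def] using h3

end UPI

theorem upi (hL : S_LIMI) : S_UPI := by
  intro g G c R hG h0 h1 hR r0 r1 r2
  have hc : 0 ≤ c := r0.nonneg
  have hR0 : (0 : ℝ) ≤ R := Nat.cast_nonneg R
  have fm : ∀ a a', a ≤ a' → ⌊(R : ℝ) * G a⌋₊ ≤ ⌊(R : ℝ) * G a'⌋₊ := fun a a' h =>
    Nat.floor_le_floor (mul_le_mul_of_nonneg_left (hG h) hR0)
  have fR : ∀ a, (⌊(R : ℝ) * G a⌋₊ : ℝ) ≤ R := fun a =>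
    (Nat.floor_le (mul_nonneg hR0 (h0 a))).trans (mul_le_of_le_one_right hR0 (h1 a))
  have key : ∀ a, ∃ a0, a0 ≤ a ∧ ⌊(R : ℝ) * G a⌋₊ = ⌊(R : ℝ) * G a0⌋₊ ∧
      RepI (dil a0 g) (c + 2 * c * (⌊(R : ℝ) * G a⌋₊ : ℝ)) := by
    intro a
    induction a with
    | zero => exact ⟨0, le_rfl, rfl, r0.mono (le_add_of_nonneg_right (by positivity))⟩
    | succ a ih =>
      obtain ⟨a0, i1, i2, i3⟩ := ih
      by_cases e : ⌊(R : ℝ) * G (a + 1)⌋₊ = ⌊(R : ℝ) * G a⌋₊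
      · exact ⟨a0, by omega, e.trans i2, by rwa [e]⟩
      · have l1 : ⌊(R : ℝ) * G a⌋₊ + 1 ≤ ⌊(R : ℝ) * G (a + 1)⌋₊ :=
          lt_of_le_of_ne (fm a (a + 1) (by omega)) (Ne.symm e)
        have l2 : (⌊(R : ℝ) * G a⌋₊ : ℝ) + 1 ≤ ⌊(R : ℝ) * G (a + 1)⌋₊ := by exact_mod_cast l1
        refine ⟨a + 1, le_rfl, rfl, ?_⟩
        have h := (i3.add (r2 a0 a i1 (UPI.close hR (h0 a0) i2))).add (r1 a)
        rw [show dil a0 g + (dil a g - dil a0 g) + (dil (a + 1) g - dil a g) = dil (a + 1) g by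
          ring] at h
        exact h.mono (by nlinarith [mul_le_mul_of_nonneg_left l2 hc])
  have all : ∀ a, RepI (dil a g) ((2 * R + 2) * c) := by
    intro a
    obtain ⟨a0, i1, i2, i3⟩ := key a
    have h := i3.add (r2 a0 a i1 (UPI.close hR (h0 a0) i2))
    rw [show dil a0 g + (dil a g - dil a0 g) = dil a g by ring] at h
    exact h.mono (by nlinarith [mul_le_mul_of_nonneg_left (fR a) hc])
  refine hL (fun a => dil a g) g (fun _ => (2 * R + 2) * c) _ all tendsto_const_nhds fun n => ?_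
  simp only [coeff_dil]
  simpa using (UPI.rr_lim.pow n).mul_const (PowerSeries.coeff n g)

end Pool.Agent.MP_fe3998_an.IV
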