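import Pool.Agent.MP_fe3998_an.PR.GT
import Pool.Agent.MP_fe3998_an.PR.FAC
import Pool.Agent.MP_fe3998_an.PR.LB
import Pool.Agent.MP_fe3998_an.PR.OPS
import Pool.Agent.MP_fe3998_an.PR.PC
import Pool.Agent.MP_fe3998_an.PR.NS
import Pool.Agent.MP_fe3998_an.PR.CONV
import Pool.Agent.MP_fe3998_an.PR.SUP
import Pool.Agent.MP_fe3998_an.PR.LOWA
import Pool.Agent.MP_fe3998_an.IV.FAR1
import Pool.Agent.MP_fe3998_an.IV.PAIRG
import Pool.Agent.MP_fe3998_an.IV.SYS
import Pool.Agent.MP_fe3998_an.IV.FARI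
import Pool.Agent.MP_fe3998_an.IV.LOWI
import Pool.Agent.MP_fe3998_an.IV.NORMH
import Pool.Agent.MP_fe3998_an.IV.CNTH
import Pool.Agent.MP_fe3998_an.IV.BAND
import Pool.Agent.MP_fe3998_an.IV.ANA
import Pool.Agent.MP_fe3998_an.IV.FINU
import Pool.Agent.MP_fe3998_an.IV.HLOW
import Pool.Agent.MP_fe3998_an.IV.KAP
import Pool.Agent.MP_fe3998_an.IV.SUPH
import Pool.Agent.MP_fe3998_an.IV.FACI
import Pool.Agent.MP_fe3998_an.IV.SYMI
import Pool.Agent.MP_fe3998_an.IV.LIMI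
import Pool.Agent.MP_fe3998_an.IV.HBS
import Pool.Agent.MP_fe3998_an.IV.UPI
import Pool.Agent.MP_fe3998_an.IV.DIG
import Pool.Agent.MP_fe3998_an.IV.REGW
import Pool.Agent.MP_fe3998_an.IV.UPF
import Pool.Agent.MP_fe3998_an.IV.ASY

/-!
Norm control of inverses: the steps put together.
-/

set_option autoImplicit false

namespace Pool.Agent.MP_fe3998_an.IV

open Pool.Agent.MP_fe3998_an.PR

theorem pitt0 : S_PITT := pitt (faci (fac gt))

theorem upper : S_UPF :=
  upf (finu sup_le (symi (faci (fac gt))) ana dbm (hbs lb) band (fari (far1 tens) kap)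
    (step (cnv (norm_fac (fac gt)) tens) limi) (upi limi)) pitt0

theorem lower : S_ASY :=
  asy (lowi sys (normh (regw gt) (cnth dig)) (hlow pairg suph (hbs lb) dbm) (lowa push) ana pitt0)

end Pool.Agent.MP_fe3998_an.IV
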